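import Pool.Agent.H7.OC.Strat

set_option autoImplicit false

namespace Pool.Agent.H7.OC

open Finset Pool.Agent.H28R3

variable {n : ℕ}

/-- The potential of a family of sets. -/
noncomputable def PF (𝓕 : Finset (Finset (Sym2 (Fin n)))) (m : ℝ) (C U : Finset (Sym2 (Fin n))) :
    ℝ := ∑ S ∈ 𝓕, wt m C U S

lemma PF_ge_one {𝓕 : Finset (Finset (Sym2 (Fin n)))} {m : ℝ} (hm : 0 ≤ m)
    {C U S : Finset (Sym2 (Fin n))} (hS : S ∈ 𝓕) (hSC : S ⊆ C) : 1 ≤ PF 𝓕 m C U := by
  have h1 : wt m C U S = 1 := by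
    unfold wt
    apply Finset.prod_eq_one
    intro e he
    unfold ew
    rw [if_pos (hSC he)]
  rw [← h1]
  exact Finset.single_le_sum (f := fun S => wt m C U S) (fun S _ => wt_nonneg hm C U S) hS

lemma PF_step {𝓕 : Finset (Finset (Sym2 (Fin n)))} {q : ℕ} {C U F : Finset (Sym2 (Fin n))}
    (hCU : Disjoint C U) (hFU : F ⊆ U) (hF : F.card = q + 1) :
    ∑ e ∈ F, PF 𝓕 ((q + 1 : ℕ) : ℝ) (insert e C) (U \ F)
      ≤ ((q + 1 : ℕ) : ℝ) * PF 𝓕 ((q + 1 : ℕ) : ℝ) C U := by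
  have hm0 : (0 : ℝ) < ((q + 1 : ℕ) : ℝ) := by positivity
  unfold PF
  rw [Finset.sum_comm, Finset.mul_sum]
  refine Finset.sum_le_sum fun S _ => ?_
  have hw := wt_nonneg hm0.le C U S
  by_cases h0 : S ∩ F = ∅
  · rw [Finset.sum_congr rfl fun e he => wt_step_none he h0, Finset.sum_const, hF, nsmul_eq_mul]
  by_cases h1 : ∃ f, S ∩ F = {f}
  · obtain ⟨f, hf⟩ := h1
    have hfF : f ∈ F := by
      have : f ∈ S ∩ F := by rw [hf]; simp
      exact (Finset.mem_inter.mp this).2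
    have hfS : f ∈ S := by
      have : f ∈ S ∩ F := by rw [hf]; simp
      exact (Finset.mem_inter.mp this).1
    rw [Finset.sum_eq_single_of_mem f hfF]
    · rw [wt_step_one hm0.ne' hCU hFU hfF hf]
    · intro e he hne
      exact wt_step_two hCU hFU hfS hfF hne.symm
  · have : ∀ e ∈ F, wt ((q + 1 : ℕ) : ℝ) (insert e C) (U \ F) S = 0 := by
      intro e he
      obtain ⟨f, hf, hne⟩ : ∃ f ∈ S ∩ F, f ≠ e := by
        by_contra hcon
        push Not at hcon
        obtain ⟨x, hx⟩ := Finset.nonempty_iff_ne_empty.mpr h0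
        apply h1
        refine ⟨e, ?_⟩
        ext y
        constructor
        · intro hy; rw [hcon y hy]; simp
        · intro hy
          rw [Finset.mem_singleton.mp hy, ← hcon x hx]; exact hx
      exact wt_step_two hCU hFU (Finset.mem_inter.mp hf).1 (Finset.mem_inter.mp hf).2 hne
    rw [Finset.sum_eq_zero this]
    positivity

/-- If some member of `𝓕` is contained in `C` at the end of all complete rounds then the
potential is at least one as long as Waiter can force a win. -/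
lemma PF_of_forces {𝓕 : Finset (Finset (Sym2 (Fin n)))} {q : ℕ} {r : LastRound}
    {C U : Finset (Sym2 (Fin n))} (h : WaiterForces r q C U)
    (hfin : ∀ C : Finset (Sym2 (Fin n)), HasOddCycle C → ∃ S ∈ 𝓕, S ⊆ C)
    (hlast : ∀ (C : Finset (Sym2 (Fin n))) (e : Sym2 (Fin n)), HasOddCycle (insert e C) →
      ∃ S ∈ 𝓕, S ⊆ C) :
    Disjoint C U → 1 ≤ PF 𝓕 ((q + 1 : ℕ) : ℝ) C U := by
  have hm0 : (0 : ℝ) < ((q + 1 : ℕ) : ℝ) := by positivity
  induction h with
  | finished C h =>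
    intro _
    obtain ⟨S, hS, hSC⟩ := hfin C h
    exact PF_ge_one hm0.le hS hSC
  | round C U F hFU hF h ih =>
    intro hCU
    have h1 : ∀ e ∈ F, 1 ≤ PF 𝓕 ((q + 1 : ℕ) : ℝ) (insert e C) (U \ F) := by
      intro e he
      apply ih e he
      rw [Finset.disjoint_left]
      intro x hx hx2
      rw [Finset.mem_sdiff] at hx2
      rw [Finset.mem_insert] at hx
      rcases hx with rfl | hx
      · exact hx2.2 he
      · exact (Finset.disjoint_left.mp hCU hx) hx2.1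
    have h2 := PF_step (𝓕 := 𝓕) hCU hFU hF
    have h3 : ∑ _e ∈ F, (1 : ℝ) ≤ ∑ e ∈ F, PF 𝓕 ((q + 1 : ℕ) : ℝ) (insert e C) (U \ F) :=
      Finset.sum_le_sum h1
    rw [Finset.sum_const, hF, nsmul_eq_mul, mul_one] at h3
    have h4 := h3.trans h2
    have h5 : ((q + 1 : ℕ) : ℝ) * 1 ≤ ((q + 1 : ℕ) : ℝ) * PF 𝓕 ((q + 1 : ℕ) : ℝ) C U := by
      rw [mul_one]; exact h4
    exact le_of_mul_le_mul_left h5 hm0
  | last C U hne hU h1 h2 =>
    intro _
    cases r with
    | clientTakesOne =>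
      obtain ⟨e, he⟩ := hne
      obtain ⟨S, hS, hSC⟩ := hlast C e (h1 rfl e he)
      exact PF_ge_one hm0.le hS hSC
    | waiterTakesAll =>
      obtain ⟨S, hS, hSC⟩ := hfin C (h2 rfl)
      exact PF_ge_one hm0.le hS hSC

/-- When the number of edges is divisible by `q + 1` the two conventions agree, and the odd cycle
potential of Client works for both of them. -/
lemma Pc_of_forces_dvd {q : ℕ} {r : LastRound} {C U : Finset (Sym2 (Fin n))}
    (h : WaiterForces r q C U) :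
    q + 1 ∣ U.card → Disjoint C U → 1 ≤ Pc ((q + 1 : ℕ) : ℝ) C U := by
  have hm0 : (0 : ℝ) < ((q + 1 : ℕ) : ℝ) := by positivity
  induction h with
  | finished C h => intro _ _; exact Pc_ge_one hm0.le h
  | round C U F hFU hF h ih =>
    intro hdvd hCU
    have h1 : ∀ e ∈ F, 1 ≤ Pc ((q + 1 : ℕ) : ℝ) (insert e C) (U \ F) := by
      intro e he
      apply ih e he
      · rw [Finset.card_sdiff_of_subset hFU, hF]
        exact Nat.dvd_sub hdvd (dvd_refl _)
      rw [Finset.disjoint_left]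
      intro x hx hx2
      rw [Finset.mem_sdiff] at hx2
      rw [Finset.mem_insert] at hx
      rcases hx with rfl | hx
      · exact hx2.2 he
      · exact (Finset.disjoint_left.mp hCU hx) hx2.1
    have h2 := Pc_step hCU hFU hF
    have h3 : ∑ _e ∈ F, (1 : ℝ) ≤ ∑ e ∈ F, Pc ((q + 1 : ℕ) : ℝ) (insert e C) (U \ F) :=
      Finset.sum_le_sum h1
    rw [Finset.sum_const, hF, nsmul_eq_mul, mul_one] at h3
    have h4 := h3.trans h2
    have h5 : ((q + 1 : ℕ) : ℝ) * 1 ≤ ((q + 1 : ℕ) : ℝ) * Pc ((q + 1 : ℕ) : ℝ) C U := by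
      rw [mul_one]; exact h4
    exact le_of_mul_le_mul_left h5 hm0
  | last C U hne hU h1 h2 =>
    intro hdvd
    exfalso
    have := Nat.le_of_dvd (Finset.card_pos.mpr hne) hdvd
    omega

theorem client_wins_dvd {r : LastRound} {c : ℝ} (hc0 : 0 < c) (hc1 : c < 1) {q : ℕ}
    (hq : (n : ℝ) ≤ c * ((q + 1 : ℕ) : ℝ)) (hc : fA c < 2) (hdvd : q + 1 ∣ n.choose 2) :
    ¬ WaiterWins r n q := by
  intro h
  have h1 := Pc_of_forces_dvd h (by
    have : ((⊤ : SimpleGraph (Fin n)).edgeFinset).card = n.choose 2 := card_E0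
    rw [this]; exact hdvd) (Finset.disjoint_empty_left _)
  have h2 := Pc_init (n := n) hc0 hc1 hq hc
  unfold E0 at h2
  linarith

/-- The cherries: pairs of adjacent edges. -/
def Ch (n : ℕ) : Finset (Finset (Sym2 (Fin n))) :=
  ((Finset.univ : Finset (Fin n × Fin n × Fin n)).filter fun p =>
    p.1 ≠ p.2.1 ∧ p.2.1 ≠ p.2.2 ∧ p.1 ≠ p.2.2).image fun p => {s(p.1, p.2.1), s(p.2.1, p.2.2)}

lemma mem_Ch {x y z : Fin n} (hxy : x ≠ y) (hyz : y ≠ z) (hxz : x ≠ z) :
    ({s(x, y), s(y, z)} : Finset (Sym2 (Fin n))) ∈ Ch n := by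
  unfold Ch
  rw [Finset.mem_image]
  exact ⟨(x, y, z), by simp [hxy, hyz, hxz], rfl⟩

lemma card_Ch : (Ch n).card ≤ n ^ 3 := by
  unfold Ch
  refine Finset.card_image_le.trans ((Finset.card_filter_le _ _).trans ?_)
  rw [Finset.card_univ, Fintype.card_prod, Fintype.card_prod, Fintype.card_fin]
  exact le_of_eq (by ring)

lemma one_ne_aux {t : ℕ} : (1 : Fin (2 * t + 2 + 1)) ≠ 0 := by
  intro h1
  have h2 := congrArg Fin.val h1
  rw [Fin.val_one', Fin.val_zero, Nat.mod_eq_of_lt (by omega)] at h2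
  omega

lemma two_ne_aux {t : ℕ} : (1 : Fin (2 * t + 2 + 1)) + 1 ≠ 0 := by
  intro h1
  have h2 := congrArg Fin.val h1
  have h5 : ((1 : Fin (2 * t + 2 + 1)) : ℕ) = 1 := by
    rw [Fin.val_one']
    exact Nat.mod_eq_of_lt (by omega)
  rw [Fin.val_add, h5, Fin.val_zero, Nat.mod_eq_of_lt (by omega)] at h2
  omega

lemma add_one_ne_aux {t : ℕ} (i : Fin (2 * t + 2 + 1)) : i + 1 ≠ i := fun h =>
  one_ne_aux (add_eq_left.mp h)

lemma add_two_ne_aux {t : ℕ} (i : Fin (2 * t + 2 + 1)) : i + 1 + 1 ≠ i := fun h =>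
  two_ne_aux (add_eq_left.mp ((add_assoc i 1 1).symm.trans h))

/-- An odd cycle minus an edge contains a cherry. -/
lemma cherry_of_odd (C : Finset (Sym2 (Fin n))) (e : Sym2 (Fin n))
    (h : HasOddCycle (insert e C)) : ∃ S ∈ Ch n, S ⊆ C := by
  obtain ⟨S, hS, hSC⟩ := seq_of_odd h
  unfold OC at hS
  rw [Finset.mem_biUnion] at hS
  obtain ⟨t, -, hS⟩ := hS
  unfold OCt at hS
  rw [Finset.mem_image] at hS
  obtain ⟨s, -, rfl⟩ := hS
  have hinj : Function.Injective (s : Fin (2 * t + 2 + 1) → Fin n) := s.injective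
  have hce := ce_injective (j := 2 * t + 2) (by omega) hinj
  -- an index `i` such that the edges number `i` and `i + 1` are in `C`
  obtain ⟨i, hi1, hi2⟩ : ∃ i : Fin (2 * t + 2 + 1), ce (s : _ → Fin n) i ≠ e ∧
      ce (s : _ → Fin n) (i + 1) ≠ e := by
    by_cases hex : ∃ i₀ : Fin (2 * t + 2 + 1), ce (s : _ → Fin n) i₀ = e
    · obtain ⟨i₀, hi₀⟩ := hex
      refine ⟨i₀ + 1, ?_, ?_⟩
      · rw [← hi₀]
        exact fun h0 => add_one_ne_aux i₀ (hce h0)
      · rw [← hi₀]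
        exact fun h0 => add_two_ne_aux i₀ (hce h0)
    · push Not at hex
      exact ⟨0, hex 0, hex _⟩
  have hmem : ∀ j, ce (s : _ → Fin n) j ≠ e → ce (s : _ → Fin n) j ∈ C := by
    intro j hj
    have : ce (s : _ → Fin n) j ∈ insert e C := by
      apply hSC
      unfold cyc
      exact Finset.mem_image_of_mem _ (Finset.mem_univ _)
    rw [Finset.mem_insert] at this
    rcases this with h0 | h0
    · exact absurd h0 hj
    · exact h0
  refine ⟨{s(s i, s (i + 1)), s(s (i + 1), s (i + 1 + 1))}, mem_Ch ?_ ?_ ?_, ?_⟩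
  · exact fun h0 => add_one_ne_aux i (hinj h0).symm
  · exact fun h0 => add_one_ne_aux (i + 1) (hinj h0).symm
  · exact fun h0 => add_two_ne_aux i (hinj h0).symm
  · intro x hx
    rw [Finset.mem_insert, Finset.mem_singleton] at hx
    rcases hx with rfl | rfl
    · exact hmem i hi1
    · exact hmem (i + 1) hi2

lemma PF_Ch_init {m : ℝ} (hm : 0 < m) (h : (n : ℝ) ^ 3 < m ^ 2) : PF (Ch n) m ∅ (E0 n) < 1 := by
  have hwt : ∀ S ∈ Ch n, wt m ∅ (E0 n) S = (m⁻¹) ^ 2 := by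
    intro S hS
    unfold Ch at hS
    rw [Finset.mem_image] at hS
    obtain ⟨⟨x, y, z⟩, hp, rfl⟩ := hS
    rw [Finset.mem_filter] at hp
    obtain ⟨-, hxy, hyz, hxz⟩ := hp
    simp only at hxy hyz hxz ⊢
    unfold wt
    rw [Finset.prod_pair, ew_init (mem_E0.mpr hxy), ew_init (mem_E0.mpr hyz)]
    · ring
    · intro h0
      rw [Sym2.eq_iff] at h0
      rcases h0 with ⟨h1, -⟩ | ⟨h1, -⟩
      · exact hxy h1
      · exact hxz h1
  unfold PF
  rw [Finset.sum_congr rfl hwt, Finset.sum_const, nsmul_eq_mul]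
  have h1 : ((Ch n).card : ℝ) ≤ (n : ℝ) ^ 3 := by exact_mod_cast card_Ch
  calc ((Ch n).card : ℝ) * (m⁻¹) ^ 2 ≤ (n : ℝ) ^ 3 * (m⁻¹) ^ 2 :=
        mul_le_mul_of_nonneg_right h1 (by positivity)
    _ < m ^ 2 * (m⁻¹) ^ 2 := mul_lt_mul_of_pos_right h (by positivity)
    _ = 1 := by rw [← mul_pow, mul_inv_cancel₀ hm.ne', one_pow]

/-- Client wins when `(q + 1) ^ 2 > n ^ 3`: he keeps a matching. -/
theorem client_wins_cube {r : LastRound} {q : ℕ} (h : n ^ 3 < (q + 1) ^ 2) :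
    ¬ WaiterWins r n q := by
  intro hw
  have hm0 : (0 : ℝ) < ((q + 1 : ℕ) : ℝ) := by positivity
  have h1 := PF_of_forces (𝓕 := Ch n) hw
    (fun C hC => by
      obtain ⟨e, he⟩ : ∃ e, e ∈ C := by
        obtain ⟨S, hS, hSC⟩ := seq_of_odd hC
        unfold OC OCt at hS
        rw [Finset.mem_biUnion] at hS
        obtain ⟨t, -, hS⟩ := hS
        rw [Finset.mem_image] at hS
        obtain ⟨s, -, rfl⟩ := hS
        exact ⟨_, hSC (Finset.mem_image_of_mem _ (Finset.mem_univ 0))⟩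
      refine cherry_of_odd C e ?_
      rw [Finset.insert_eq_of_mem he]
      exact hC)
    (fun C e hC => cherry_of_odd C e hC) (Finset.disjoint_empty_left _)
  have h2 := PF_Ch_init (n := n) hm0 (by exact_mod_cast h)
  unfold E0 at h2
  linarith

end Pool.Agent.H7.OC
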