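import Pool.Agent.H7.OC.Numb

set_option autoImplicit false

namespace Pool.Agent.H7.OC

open Finset Pool.Agent.H28R3

/-- Waiter's strategy with explicit constants. -/
theorem core {c : ℝ} (hc0 : 0 < c) (hc2 : 1 / 2 ≤ c) {T : ℕ} {κ : ℝ} (hT : 1 ≤ T) (hκ : 0 < κ)
    (hκ1 : κ ≤ 1) {n : ℕ}
    (h1 : 1 + 3 * κ ≤ ∑ t : Fin T, (2 * ((2 * (t : ℕ) + 2 + 1 : ℕ) : ℝ))⁻¹
        * ((n.descFactorial (2 * (t : ℕ) + 2 + 1) : ℝ)
          * (((n : ℝ) / c + 1)⁻¹) ^ (2 * (t : ℕ) + 2 + 1)))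
    (hbig : (8 * T / κ) ^ (30 * T ^ 2) ≤ (n : ℝ)) {q : ℕ} (hq1 : n ≤ q) (hq2 : (q : ℝ) ≤ n / c)
    (r : LastRound) : WaiterWins r n q := by
  have hT' : (1 : ℝ) ≤ T := by exact_mod_cast hT
  have hT0 : (0 : ℝ) < T := by linarith
  -- lam and D
  obtain ⟨lam, hlamdef⟩ : ∃ lam : ℝ, lam = κ / T := ⟨_, rfl⟩
  have hlam : 0 < lam := by rw [hlamdef]; positivity
  have hlamT : lam * T = κ := by rw [hlamdef]; field_simp
  obtain ⟨D, hDdef⟩ : ∃ D : ℕ, D = 2 * T + 2 + ⌈1 / lam⌉₊ := ⟨_, rfl⟩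
  have hTD : 2 * T + 1 < D := by omega
  have hlamD : 1 ≤ lam * ((D : ℝ) - (2 * T + 1)) := by
    have h1 : 1 / lam ≤ (D : ℝ) - (2 * T + 1) := by
      have h2 := Nat.le_ceil (1 / lam)
      rw [hDdef]
      push_cast
      linarith
    have h2 := mul_le_mul_of_nonneg_left h1 hlam.le
    rwa [mul_one_div, div_self hlam.ne'] at h2
  -- constants
  obtain ⟨X, hX⟩ : ∃ X : ℝ, X = T * ((1 + lam * ((2 * T + 1) * ((D : ℝ) + 1)))
      * ((D : ℝ) + 1) ^ (2 * T)) := ⟨_, rfl⟩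
  have hX0 : 0 < X := by rw [hX]; positivity
  obtain ⟨C1, hC1⟩ : ∃ C1 : ℝ, C1 = 2 * T * ((D : ℝ) + 1) ^ (2 * T) := ⟨_, rfl⟩
  have hC10 : 0 < C1 := by rw [hC1]; positivity
  obtain ⟨C2, hC2⟩ : ∃ C2 : ℝ, C2 = ((((4 * T + 1 : ℕ) : ℝ) + 1)
      * ((D : ℝ) + 1) ^ (4 * T + 1)) ^ (2 * T) := ⟨_, rfl⟩
  have hC20 : 0 < C2 := by rw [hC2]; positivity
  obtain ⟨γ, hγ⟩ : ∃ γ : ℝ, γ = κ / (4 * T * C1) := ⟨_, rfl⟩
  have hγ0 : 0 < γ := by rw [hγ]; positivity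
  obtain ⟨A, hA⟩ : ∃ A : ℝ, A = 4 * ((2 * T + 2 : ℕ) : ℝ) * X / γ := ⟨_, rfl⟩
  have hA0 : 0 < A := by rw [hA]; positivity
  obtain ⟨k, hk⟩ : ∃ k : ℕ, k = ⌈4 * A / κ⌉₊ + 1 := ⟨_, rfl⟩
  have hk0 : 0 < k := by omega
  have hk0' : (0 : ℝ) < k := by exact_mod_cast hk0
  have hAk : A / k ≤ κ / 4 := by
    have h1 : 4 * A / κ ≤ k := by
      have := Nat.le_ceil (4 * A / κ)
      rw [hk]; push_cast; linarith
    rw [div_le_iff₀ hκ] at h1
    rw [div_le_iff₀ hk0']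
    linarith
  obtain ⟨P, hP⟩ : ∃ P : ℝ, P = (1 / c + 1) * (1 + 4 * A * ((2 * T + 2 : ℕ) : ℝ) / κ) :=
    ⟨_, rfl⟩
  have hP0 : 0 < P := by rw [hP]; positivity
  -- the size of the constants
  have h2 : 1 ≤ n ∧ (0 * (n : ℝ) + 1 ≤ κ / (4 * T * C1) * (n : ℝ) ^ 2) ∧ ⌈2 * T * C2 / κ⌉₊ ≤ n ∧
      P * n + 2 ≤ γ / (4 * (k + 1)) * (n : ℝ) ^ 2 := by
    obtain ⟨Y, hY⟩ : ∃ Y : ℝ, Y = 8 * T / κ := ⟨_, rfl⟩
    rw [← hY] at hbig
    have hTκ : (T : ℝ) ≤ T / κ := by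
      rw [le_div_iff₀ hκ]; nlinarith
    have hκT : 1 / κ ≤ T / κ := div_le_div_of_nonneg_right hT' hκ.le
    have hone : 1 ≤ 1 / κ := by rw [le_div_iff₀ hκ]; linarith
    have hY1 : Y = 8 * (T / κ) := by rw [hY]; ring
    have hY8 : 8 ≤ Y := by rw [hY1]; linarith
    have hY0 : 0 < Y := by linarith
    have hYg1 : 1 ≤ Y := by linarith
    have hTY : 8 * (T : ℝ) ≤ Y := by rw [hY1]; linarith
    have hκY : 8 * (1 / κ) ≤ Y := by rw [hY1]; linarith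
    have hDY : (D : ℝ) + 1 ≤ Y := by
      have e1 : 1 / lam = T / κ := by rw [hlamdef]; field_simp
      have e2 : (⌈1 / lam⌉₊ : ℝ) ≤ T / κ + 1 := by
        rw [e1]; exact (Nat.ceil_lt_add_one (by positivity)).le
      rw [hDdef]
      push_cast
      rw [hY1]
      linarith
    have hD0 : (0 : ℝ) ≤ (D : ℝ) + 1 := by positivity
    have hpow : ∀ e : ℕ, e ≤ 30 * T ^ 2 → Y ^ e ≤ n := fun e he =>
      (pow_le_pow_right₀ hYg1 he).trans hbig
    have hDp : ∀ e : ℕ, ((D : ℝ) + 1) ^ e ≤ Y ^ e := fun e => pow_le_pow_left₀ hD0 hDY e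
    have hT1 : T ≤ T ^ 2 := Nat.le_self_pow (by norm_num) T
    have hT2 : 1 ≤ T ^ 2 := Nat.one_le_pow _ _ hT
    -- C1
    have bC1 : C1 ≤ Y ^ (2 * T + 1) := by
      rw [hC1, pow_succ']
      exact mul_le_mul (by linarith) (hDp _) (by positivity) (by positivity)
    -- X
    have bX : X ≤ Y ^ (2 * T + 2) := by
      rw [hX]
      have e1 : lam * ((2 * T + 1) * ((D : ℝ) + 1)) ≤ 3 * Y := by
        have e2 : lam * (2 * T + 1) ≤ 3 := by
          have : lam * (2 * (T : ℝ) + 1) ≤ lam * (3 * T) :=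
            mul_le_mul_of_nonneg_left (by linarith) hlam.le
          have e3 : lam * (3 * (T : ℝ)) = 3 * κ := by rw [← hlamT]; ring
          linarith
        calc lam * ((2 * T + 1) * ((D : ℝ) + 1)) = (lam * (2 * T + 1)) * ((D : ℝ) + 1) := by ring
          _ ≤ 3 * Y := mul_le_mul e2 hDY hD0 (by norm_num)
      calc (T : ℝ) * ((1 + lam * ((2 * T + 1) * ((D : ℝ) + 1))) * ((D : ℝ) + 1) ^ (2 * T))
          ≤ T * ((4 * Y) * Y ^ (2 * T)) := by
            apply mul_le_mul_of_nonneg_left _ hT0.le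
            apply mul_le_mul (by linarith) (hDp _) (by positivity) (by positivity)
        _ = (4 * T) * Y * Y ^ (2 * T) := by ring
        _ ≤ Y * Y * Y ^ (2 * T) := by gcongr; linarith
        _ = Y ^ (2 * T + 2) := by ring
    -- γ
    have bγ : 1 / γ ≤ Y ^ (2 * T + 2) := by
      have e1 : 1 / γ = (4 * (T / κ)) * C1 := by rw [hγ]; field_simp
      rw [e1]
      calc (4 * ((T : ℝ) / κ)) * C1 ≤ Y * Y ^ (2 * T + 1) := by
            apply mul_le_mul _ bC1 hC10.le hY0.le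
            rw [hY1]; linarith
        _ = Y ^ (2 * T + 2) := by ring
    -- A
    have bA : A ≤ Y ^ (4 * T + 6) := by
      have e1 : A = (4 * ((2 * T + 2 : ℕ) : ℝ)) * (X * (1 / γ)) := by rw [hA]; ring
      have e2 : 4 * ((2 * T + 2 : ℕ) : ℝ) ≤ Y * Y := by push_cast; nlinarith
      rw [e1]
      calc (4 * ((2 * T + 2 : ℕ) : ℝ)) * (X * (1 / γ)) ≤ (Y * Y) * (Y ^ (2 * T + 2) * Y ^ (2 * T + 2)) := by
            apply mul_le_mul e2 _ (by positivity) (by positivity)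
            exact mul_le_mul bX bγ (by positivity) (by positivity)
        _ = Y ^ (4 * T + 6) := by ring
    have hYp : ∀ e : ℕ, 1 ≤ Y ^ e := fun e => one_le_pow₀ hYg1
    -- k
    have bk : (k : ℝ) + 1 ≤ Y ^ (4 * T + 7) := by
      have e1 : (⌈4 * A / κ⌉₊ : ℝ) ≤ 4 * A / κ + 1 := (Nat.ceil_lt_add_one (by positivity)).le
      have e2 : 4 * A / κ = (4 * (1 / κ)) * A := by ring
      have e3 : (4 * (1 / κ)) * A ≤ (Y / 2) * Y ^ (4 * T + 6) :=
        mul_le_mul (by linarith) bA hA0.le (by positivity)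
      have e4 : Y ^ (4 * T + 7) = Y * Y ^ (4 * T + 6) := by ring
      have e5 := hYp (4 * T + 6)
      rw [hk]
      push_cast
      rw [e4]
      nlinarith
    -- P
    have bP : P ≤ Y ^ (4 * T + 9) := by
      have e1 : 1 / c + 1 ≤ 3 := by
        have : 1 / c ≤ 2 := by rw [div_le_iff₀ hc0]; linarith
        linarith
      have e2 : 4 * A * ((2 * T + 2 : ℕ) : ℝ) / κ ≤ 2 * Y ^ (4 * T + 7) := by
        have e3 : 4 * A * ((2 * T + 2 : ℕ) : ℝ) / κ = (4 * ((2 * T + 2 : ℕ) : ℝ) * (1 / κ)) * A := by ring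
        have e4 : 4 * ((2 * T + 2 : ℕ) : ℝ) * (1 / κ) ≤ 2 * Y := by
          have e5 : 4 * ((2 * T + 2 : ℕ) : ℝ) ≤ 16 * T := by push_cast; linarith
          calc 4 * ((2 * T + 2 : ℕ) : ℝ) * (1 / κ) ≤ 16 * T * (1 / κ) :=
                mul_le_mul_of_nonneg_right e5 (by positivity)
            _ = 2 * Y := by rw [hY]; ring
        rw [e3]
        calc (4 * ((2 * T + 2 : ℕ) : ℝ) * (1 / κ)) * A ≤ (2 * Y) * Y ^ (4 * T + 6) :=
              mul_le_mul e4 bA hA0.le (by positivity)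
          _ = 2 * Y ^ (4 * T + 7) := by ring
      have e6 := hYp (4 * T + 7)
      rw [hP]
      calc (1 / c + 1) * (1 + 4 * A * ((2 * T + 2 : ℕ) : ℝ) / κ)
          ≤ 3 * (3 * Y ^ (4 * T + 7)) := by
            apply mul_le_mul e1 (by linarith) (by positivity) (by norm_num)
        _ = 9 * Y ^ (4 * T + 7) := by ring
        _ ≤ (Y * Y) * Y ^ (4 * T + 7) := by
            apply mul_le_mul_of_nonneg_right _ (by positivity)
            calc (9 : ℝ) ≤ 8 * 8 := by norm_num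
              _ ≤ Y * Y := mul_le_mul hY8 hY8 (by norm_num) hY0.le
        _ = Y ^ (4 * T + 9) := by ring
    -- C2
    have bC2 : C2 ≤ Y ^ (8 * T ^ 2 + 4 * T) := by
      rw [hC2]
      have e1 : (((4 * T + 1 : ℕ) : ℝ) + 1) * ((D : ℝ) + 1) ^ (4 * T + 1) ≤ Y ^ (4 * T + 2) := by
        rw [pow_succ' Y]
        apply mul_le_mul _ (hDp _) (by positivity) hY0.le
        push_cast
        linarith
      calc ((((4 * T + 1 : ℕ) : ℝ) + 1) * ((D : ℝ) + 1) ^ (4 * T + 1)) ^ (2 * T)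
          ≤ (Y ^ (4 * T + 2)) ^ (2 * T) := pow_le_pow_left₀ (by positivity) e1 _
        _ = Y ^ (8 * T ^ 2 + 4 * T) := by rw [← pow_mul]; congr 1; ring
    have hn1 : (1 : ℝ) ≤ n := (hYp 0).trans (hpow 0 (Nat.zero_le _))
    have hn0 : (0 : ℝ) < n := by linarith
    refine ⟨by exact_mod_cast hn1, ?_, ?_, ?_⟩
    · rw [zero_mul, zero_add, ← hγ]
      have e1 : 1 / γ ≤ n := bγ.trans (hpow _ (by omega))
      rw [div_le_iff₀ hγ0] at e1
      nlinarith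
    · apply Nat.ceil_le.mpr
      calc 2 * T * C2 / κ = (2 * (T / κ)) * C2 := by ring
        _ ≤ Y * Y ^ (8 * T ^ 2 + 4 * T) := by
            apply mul_le_mul _ bC2 hC20.le hY0.le
            rw [hY1]; linarith
        _ = Y ^ (8 * T ^ 2 + 4 * T + 1) := by ring
        _ ≤ n := hpow _ (by omega)
    · have e1 : (P + 2) * (4 * ((k : ℝ) + 1)) * (1 / γ) ≤ n := by
        have e2 : P + 2 ≤ Y ^ (4 * T + 10) := by
          have e3 := hYp (4 * T + 9)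
          have e4 : Y ^ (4 * T + 10) = Y * Y ^ (4 * T + 9) := by ring
          rw [e4]; nlinarith
        have e5 : 4 * ((k : ℝ) + 1) ≤ Y ^ (4 * T + 8) := by
          have e4 : Y ^ (4 * T + 8) = Y * Y ^ (4 * T + 7) := by ring
          rw [e4]
          have e3 := hYp (4 * T + 7)
          nlinarith
        calc (P + 2) * (4 * ((k : ℝ) + 1)) * (1 / γ)
            ≤ (Y ^ (4 * T + 10) * Y ^ (4 * T + 8)) * Y ^ (2 * T + 2) := by
              apply mul_le_mul _ bγ (by positivity) (by positivity)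
              exact mul_le_mul e2 e5 (by positivity) (by positivity)
          _ = Y ^ (10 * T + 20) := by ring
          _ ≤ n := hpow _ (by omega)
      have e6 : (P + 2) ≤ γ / (4 * ((k : ℝ) + 1)) * n := by
        have e7 : (0 : ℝ) < 4 * ((k : ℝ) + 1) := by positivity
        rw [div_mul_eq_mul_div, le_div_iff₀ e7]
        rw [mul_one_div, div_le_iff₀ hγ0] at e1
        linarith
      calc P * n + 2 ≤ (P + 2) * n := by nlinarith
        _ ≤ (γ / (4 * ((k : ℝ) + 1)) * n) * n := mul_le_mul_of_nonneg_right e6 hn0.le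
        _ = _ := by ring
  obtain ⟨h2, h3, h4, h5⟩ := h2
  have hn0 : (0 : ℝ) < n := by exact_mod_cast h2
  have hn1 : (1 : ℝ) ≤ n := by exact_mod_cast h2
  obtain ⟨m, hm⟩ : ∃ m : ℝ, m = ((q + 1 : ℕ) : ℝ) := ⟨_, rfl⟩
  have hmq : m = q + 1 := by rw [hm]; push_cast; ring
  have hqn : (n : ℝ) ≤ q := by exact_mod_cast hq1
  have hnm : (n : ℝ) ≤ m := by rw [hmq]; linarith
  have hm0 : 0 < m := by linarith
  have hmle : m ≤ n / c + 1 := by rw [hmq]; linarith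
  have hmle2 : m ≤ (1 / c + 1) * n := by
    refine hmle.trans ?_
    have : (n : ℝ) / c = 1 / c * n := by ring
    rw [this]
    nlinarith
  have hminv : m⁻¹ ≤ (n : ℝ)⁻¹ := inv_anti₀ hn0 hnm
  have hminv0 : 0 ≤ m⁻¹ := inv_nonneg.mpr hm0.le
  have hminv2 : (m⁻¹) ^ 2 ≤ ((n : ℝ)⁻¹) ^ 2 := pow_le_pow_left₀ hminv0 hminv 2
  -- M and N, B
  obtain ⟨M, hM⟩ : ∃ M : ℕ, M = ⌊γ * (n : ℝ) ^ 2 / (4 * (k + 1))⌋₊ := ⟨_, rfl⟩
  obtain ⟨N, hN⟩ : ∃ N : ℕ, N = ⌈γ * (n : ℝ) ^ 2⌉₊ := ⟨_, rfl⟩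
  obtain ⟨B, hB⟩ : ∃ B : ℝ, B = A / (n : ℝ) ^ 2 := ⟨_, rfl⟩
  have hB0 : 0 < B := by rw [hB]; positivity
  have hMle : (M : ℝ) ≤ γ * (n : ℝ) ^ 2 / (4 * (k + 1)) := by
    rw [hM]; exact Nat.floor_le (by positivity)
  have hMge : γ * (n : ℝ) ^ 2 / (4 * (k + 1)) - 1 < M := by
    rw [hM]
    have := Nat.lt_floor_add_one (γ * (n : ℝ) ^ 2 / (4 * (k + 1)))
    linarith
  have hMP : P * n + 1 ≤ M := by
    have : γ / (4 * (k + 1)) * (n : ℝ) ^ 2 = γ * (n : ℝ) ^ 2 / (4 * (k + 1)) := by ring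
    rw [this] at h5
    linarith
  have hPm : m * (1 + 4 * A * ((2 * T + 2 : ℕ) : ℝ) / κ) ≤ P * n := by
    rw [hP]
    have h6 : (0 : ℝ) ≤ 1 + 4 * A * ((2 * T + 2 : ℕ) : ℝ) / κ := by positivity
    calc m * (1 + 4 * A * ((2 * T + 2 : ℕ) : ℝ) / κ)
        ≤ ((1 / c + 1) * n) * (1 + 4 * A * ((2 * T + 2 : ℕ) : ℝ) / κ) :=
          mul_le_mul_of_nonneg_right hmle2 h6
      _ = _ := by ring
  have hMm1 : m * (4 * A * ((2 * T + 2 : ℕ) : ℝ) / κ) ≤ M - m := by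
    have : m * (1 + 4 * A * ((2 * T + 2 : ℕ) : ℝ) / κ)
        = m + m * (4 * A * ((2 * T + 2 : ℕ) : ℝ) / κ) := by ring
    rw [this] at hPm
    linarith
  have hMm : 0 < (M : ℝ) - m := by
    have : 0 < m * (4 * A * ((2 * T + 2 : ℕ) : ℝ) / κ) := by positivity
    linarith
  have hMq : q + 1 < M := by
    have : ((q + 1 : ℕ) : ℝ) < M := by rw [← hm]; linarith
    exact_mod_cast this
  have hNge : γ * (n : ℝ) ^ 2 ≤ N := by rw [hN]; exact Nat.le_ceil _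
  have hNle : (N : ℝ) ≤ γ * (n : ℝ) ^ 2 + 1 := by
    rw [hN]; exact (Nat.ceil_lt_add_one (by positivity)).le
  have hNcond : ((k + 1) * M : ℝ) + (2 * T + 2 : ℕ) * X / B ≤ N := by
    have e1 : ((k : ℝ) + 1) * M ≤ γ * (n : ℝ) ^ 2 / 4 := by
      have := mul_le_mul_of_nonneg_left hMle (by positivity : (0 : ℝ) ≤ (k : ℝ) + 1)
      refine this.trans (le_of_eq ?_)
      field_simp
    have e2 : ((2 * T + 2 : ℕ) : ℝ) * X / B = γ * (n : ℝ) ^ 2 / 4 := by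
      rw [hB, hA]
      field_simp
    rw [e2]
    have : 0 ≤ γ * (n : ℝ) ^ 2 := by positivity
    linarith
  obtain ⟨δ, hδ⟩ : ∃ δ : ℝ, δ = 2 * B / k
      + 2 * (((q + 1 : ℕ) : ℝ) * ((2 * T + 2 : ℕ) * B) / (M - ((q + 1 : ℕ) : ℝ))) := ⟨_, rfl⟩
  have hδU : δ * (E0 n).card ≤ κ / 2 := by
    have hδ0 : 0 ≤ δ := by
      rw [hδ, ← hm]
      positivity
    refine (mul_le_mul_of_nonneg_left card_E0_le hδ0).trans ?_
    rw [hδ, ← hm, hB]
    have e1 : (2 * (A / (n : ℝ) ^ 2) / k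
        + 2 * (m * (((2 * T + 2 : ℕ) : ℝ) * (A / (n : ℝ) ^ 2)) / (M - m))) * ((n : ℝ) ^ 2 / 2)
        = A / k + A * ((2 * T + 2 : ℕ) : ℝ) * m / (M - m) := by
      field_simp
    rw [e1]
    have e2 : A * ((2 * T + 2 : ℕ) : ℝ) * m / (M - m) ≤ κ / 4 := by
      rw [div_le_iff₀ hMm]
      have := mul_le_mul_of_nonneg_left hMm1 (by positivity : (0 : ℝ) ≤ κ / 4)
      refine le_trans (le_of_eq ?_) this
      field_simp
    linarith
  have hΦ : 1 + T * (N * (2 * T * ((D : ℝ) + 1) ^ (2 * T)) * ((((q + 1 : ℕ) : ℝ))⁻¹) ^ 2)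
        + T * ((n * ((((4 * T + 1 : ℕ) : ℝ) + 1) * ((D : ℝ) + 1) ^ (4 * T + 1)) ^ (2 * T))
          * ((((q + 1 : ℕ) : ℝ))⁻¹) ^ 2) ≤ 1 + κ := by
    rw [← hm, ← hC1, ← hC2]
    have e1 : (T : ℝ) * (N * C1 * (m⁻¹) ^ 2) ≤ κ / 2 := by
      calc (T : ℝ) * (N * C1 * (m⁻¹) ^ 2)
          ≤ T * ((γ * (n : ℝ) ^ 2 + 1) * C1 * ((n : ℝ)⁻¹) ^ 2) := by
            apply mul_le_mul_of_nonneg_left _ hT0.le
            apply mul_le_mul _ hminv2 (by positivity) (by positivity)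
            exact mul_le_mul_of_nonneg_right hNle hC10.le
        _ = T * C1 * γ + T * C1 / (n : ℝ) ^ 2 := by
            field_simp
        _ ≤ κ / 4 + κ / 4 := by
            apply add_le_add
            · rw [hγ]; apply le_of_eq; field_simp
            · rw [div_le_iff₀ (by positivity)]
              rw [zero_mul, zero_add] at h3
              have h7 := mul_le_mul_of_nonneg_left h3 (by positivity : (0 : ℝ) ≤ T * C1)
              refine le_trans (le_of_eq (by ring)) (h7.trans (le_of_eq ?_))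
              field_simp
        _ = κ / 2 := by ring
    have e2 : (T : ℝ) * ((n * C2) * (m⁻¹) ^ 2) ≤ κ / 2 := by
      calc (T : ℝ) * ((n * C2) * (m⁻¹) ^ 2)
          ≤ T * ((n * C2) * ((n : ℝ)⁻¹) ^ 2) := by
            apply mul_le_mul_of_nonneg_left _ hT0.le
            exact mul_le_mul_of_nonneg_left hminv2 (by positivity)
        _ = T * C2 / n := by field_simp
        _ ≤ κ / 2 := by
            rw [div_le_iff₀ hn0]
            have h8 : 2 * T * C2 / κ ≤ n := (Nat.le_ceil _).trans (by exact_mod_cast h4)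
            rw [div_le_iff₀ hκ] at h8
            linarith
    linarith
  have hinit := Phi_init (T := T) (n := n) hm0 hnm hlam.le
  have hs2 : 1 + 3 * κ ≤ ∑ t : Fin T, (2 * ((2 * (t : ℕ) + 2 + 1 : ℕ) : ℝ))⁻¹
      * ((n.descFactorial (2 * (t : ℕ) + 2 + 1) : ℝ) * (m⁻¹) ^ (2 * (t : ℕ) + 2 + 1)) := by
    refine h1.trans (Finset.sum_le_sum fun t _ => ?_)
    apply mul_le_mul_of_nonneg_left _ (by positivity)
    apply mul_le_mul_of_nonneg_left _ (by positivity)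
    apply pow_le_pow_left₀ (by positivity)
    exact inv_anti₀ hm0 hmle
  apply loop (T := T) (n := n) r (q := q) (D := D) (k := k) (M := M) (N := N) (X := X) (B := B)
    (δ := δ) (Φ₁ := 1 + κ) (lam := lam) (by omega) hTD hlamD hlam.le hX hB0 hk0 hMq hNcond
    (le_of_eq hδ.symm) hΦ (E0 n).card ∅ (E0 n) le_rfl (good_init D (4 * T + 1))
  rw [← hm]
  rw [hlamT] at hinit
  linarith

end Pool.Agent.H7.OC
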