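import Pool.Agent.H7.OC.Numb

set_option autoImplicit false

namespace Pool.Agent.H7.OC

open Finset Filter Topology Pool.Agent.H28R3

/-- The series. -/
lemma fA_tail {c : ℝ} (hc0 : 0 < c) (hc1 : c < 1) (T : ℕ) :
    fA c / 2 - c ^ (2 * T) / (1 - c ^ 2)
      ≤ ∑ t : Fin T, (2 * ((2 * (t : ℕ) + 2 + 1 : ℕ) : ℝ))⁻¹ * c ^ (2 * (t : ℕ) + 2 + 1) := by
  have habs : |c| < 1 := by rw [abs_of_pos hc0]; exact hc1
  have hs := Real.hasSum_log_sub_log_of_abs_lt_one habs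
  have hc2 : c ^ 2 < 1 := by nlinarith
  have hc20 : 0 ≤ c ^ 2 := sq_nonneg c
  have hg : HasSum (fun k : ℕ => 4 * (c ^ (2 * T) * (c ^ 2) ^ k)) (4 * (c ^ (2 * T) * (1 - c ^ 2)⁻¹)) :=
    ((hasSum_geometric_of_lt_one hc20 hc2).mul_left _).mul_left _
  -- the tail
  have htail := (hasSum_nat_add_iff' (T + 1)).mpr hs
  have hle : (Real.log (1 + c) - Real.log (1 - c)) - ∑ k ∈ Finset.range (T + 1),
      (2 : ℝ) * (1 / (2 * (k : ℝ) + 1)) * c ^ (2 * k + 1) ≤ 4 * (c ^ (2 * T) * (1 - c ^ 2)⁻¹) := by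
    refine hasSum_le (fun k => ?_) htail hg
    have h1 : (2 : ℝ) * (1 / (2 * ((k + (T + 1) : ℕ) : ℝ) + 1)) ≤ 2 := by
      have : (1 : ℝ) / (2 * ((k + (T + 1) : ℕ) : ℝ) + 1) ≤ 1 := by
        rw [div_le_one (by positivity)]
        have : (0 : ℝ) ≤ ((k + (T + 1) : ℕ) : ℝ) := Nat.cast_nonneg _
        linarith
      linarith
    have h2 : c ^ (2 * (k + (T + 1)) + 1) ≤ c ^ (2 * T) * (c ^ 2) ^ k := by
      rw [← pow_mul, ← pow_add]
      exact pow_le_pow_of_le_one hc0.le hc1.le (by omega)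
    have h3 : 0 ≤ c ^ (2 * T) * (c ^ 2) ^ k := by positivity
    calc (2 : ℝ) * (1 / (2 * ((k + (T + 1) : ℕ) : ℝ) + 1)) * c ^ (2 * (k + (T + 1)) + 1)
        ≤ 2 * (c ^ (2 * T) * (c ^ 2) ^ k) := mul_le_mul h1 h2 (by positivity) (by norm_num)
      _ ≤ 4 * (c ^ (2 * T) * (c ^ 2) ^ k) := by linarith
  rw [Finset.sum_range_succ'] at hle
  have h1 : ∑ t : Fin T, (2 * ((2 * (t : ℕ) + 2 + 1 : ℕ) : ℝ))⁻¹ * c ^ (2 * (t : ℕ) + 2 + 1)
      = ∑ k ∈ Finset.range T, (2 * ((2 * k + 2 + 1 : ℕ) : ℝ))⁻¹ * c ^ (2 * k + 2 + 1) :=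
    (Finset.sum_range (fun k => (2 * ((2 * k + 2 + 1 : ℕ) : ℝ))⁻¹ * c ^ (2 * k + 2 + 1))).symm
  have h2 : ∑ k ∈ Finset.range T, (2 : ℝ) * (1 / (2 * ((k + 1 : ℕ) : ℝ) + 1))
        * c ^ (2 * (k + 1) + 1)
      = 4 * ∑ k ∈ Finset.range T, (2 * ((2 * k + 2 + 1 : ℕ) : ℝ))⁻¹ * c ^ (2 * k + 2 + 1) := by
    rw [Finset.mul_sum]
    refine Finset.sum_congr rfl fun k _ => ?_
    have e1 : 2 * (k + 1) + 1 = 2 * k + 2 + 1 := by ring
    rw [e1]
    push_cast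
    have : (2 * (k : ℝ) + 2 + 1) ≠ 0 := by positivity
    have h3 : (2 * ((k : ℝ) + 1) + 1) ≠ 0 := by positivity
    field_simp
    ring
  rw [h1]
  rw [h2] at hle
  simp only [CharP.cast_eq_zero, mul_zero, zero_add, div_one, mul_one, pow_one] at hle
  unfold fA
  have h4 : c ^ (2 * T) / (1 - c ^ 2) = c ^ (2 * T) * (1 - c ^ 2)⁻¹ := by rw [div_eq_mul_inv]
  rw [h4]
  linarith

/-- The slope of `fA`. -/
lemma fA_slope {c₀ c : ℝ} (h0 : 0.995 < c₀) (hc : c₀ ≤ c) (hc1 : c < 1) :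
    fA c₀ + 10 * (c - c₀) ≤ fA c := by
  have hD : ∀ x ∈ Set.Ioo c₀ 1, 10 ≤ deriv fA x := by
    intro x hx
    rw [(fA_hasDeriv (by linarith [hx.1]) hx.2).deriv]
    have h1 : 0 < 1 + x := by linarith [hx.1]
    have h2 : 0 < 1 - x := by linarith [hx.2]
    have h3 : (1 / (1 + x) + 1 / (1 - x)) / 2 - 1 = x ^ 2 / ((1 + x) * (1 - x)) := by
      field_simp
      ring
    rw [h3, le_div_iff₀ (by positivity)]
    have h4 : (0.995 : ℝ) < x := lt_trans h0 hx.1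
    have h5 : (1 + x) * (1 - x) ≤ 0.01 := by nlinarith
    nlinarith
  have hcont : ContinuousOn fA (Set.Ico c₀ 1) := fA_cont.mono (fun x hx => ⟨by linarith [hx.1], hx.2⟩)
  have hdiff : DifferentiableOn ℝ fA (interior (Set.Ico c₀ 1)) := by
    rw [interior_Ico]
    intro x hx
    exact (fA_hasDeriv (by linarith [hx.1]) hx.2).differentiableAt.differentiableWithinAt
  have := (convex_Ico c₀ 1).mul_sub_le_image_sub_of_le_deriv hcont hdiff
    (C := 10) (by rw [interior_Ico]; exact hD) c₀ ⟨le_rfl, by linarith⟩ c ⟨hc, hc1⟩ hc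
  linarith

/-- From the limit sum to the sum for `n`. -/
lemma sum_n {c : ℝ} (hc0 : 0 < c) (hc1 : c ≤ 1) {T n : ℕ} {κ : ℝ} (hn : 0 < n) (hTn : 2 * T + 1 ≤ n)
    (hκ : 3 * (T : ℝ) ^ 2 ≤ κ * (n + 1))
    (h : 1 + 4 * κ ≤ ∑ t : Fin T, (2 * ((2 * (t : ℕ) + 2 + 1 : ℕ) : ℝ))⁻¹ * c ^ (2 * (t : ℕ) + 2 + 1)) :
    1 + 3 * κ ≤ ∑ t : Fin T, (2 * ((2 * (t : ℕ) + 2 + 1 : ℕ) : ℝ))⁻¹
        * ((n.descFactorial (2 * (t : ℕ) + 2 + 1) : ℝ)
          * (((n : ℝ) / c + 1)⁻¹) ^ (2 * (t : ℕ) + 2 + 1)) := by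
  have hn0 : (0 : ℝ) < n := by exact_mod_cast hn
  have hterm : ∀ t : Fin T, (2 * ((2 * (t : ℕ) + 2 + 1 : ℕ) : ℝ))⁻¹ * c ^ (2 * (t : ℕ) + 2 + 1)
      - (2 * (T : ℝ) + 1) / (2 * (n + 1))
      ≤ (2 * ((2 * (t : ℕ) + 2 + 1 : ℕ) : ℝ))⁻¹
        * ((n.descFactorial (2 * (t : ℕ) + 2 + 1) : ℝ)
          * (((n : ℝ) / c + 1)⁻¹) ^ (2 * (t : ℕ) + 2 + 1)) := by
    intro t
    have ht := t.2
    obtain ⟨l, hl⟩ : ∃ l : ℕ, l = 2 * (t : ℕ) + 2 + 1 := ⟨_, rfl⟩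
    rw [← hl]
    have hlT : l ≤ 2 * T + 1 := by omega
    have hln : l ≤ n := by omega
    have hl0 : (0 : ℝ) < l := by
      have : 0 < l := by omega
      exact_mod_cast this
    have hlnr : (l : ℝ) ≤ n := by exact_mod_cast hln
    have h1 : ((n : ℝ) + 1 - l) ^ l ≤ (n.descFactorial l : ℝ) := by
      have h2 := Nat.pow_sub_le_descFactorial n l
      have h3 : ((n : ℝ) + 1 - l) ^ l = (((n + 1 - l) ^ l : ℕ) : ℝ) := by
        push_cast
        rw [Nat.cast_sub (by omega)]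
        push_cast
        ring
      rw [h3]
      exact_mod_cast h2
    have h4 : c * (1 - l / (n + 1)) ≤ ((n : ℝ) + 1 - l) * ((n : ℝ) / c + 1)⁻¹ := by
      have h5 : ((n : ℝ) / c + 1)⁻¹ = c / (n + c) := by field_simp
      rw [h5]
      have h6 : c * (1 - l / ((n : ℝ) + 1)) = ((n : ℝ) + 1 - l) * (c / (n + 1)) := by field_simp
      rw [h6]
      apply mul_le_mul_of_nonneg_left _ (by linarith)
      apply div_le_div_of_nonneg_left hc0.le (by positivity) (by linarith)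
    have h7 : 0 ≤ 1 - (l : ℝ) / (n + 1) := by
      rw [sub_nonneg, div_le_one (by positivity)]; linarith
    have h8 : c ^ l * (1 - l * (l / (n + 1))) ≤ (n.descFactorial l : ℝ) * (((n : ℝ) / c + 1)⁻¹) ^ l := by
      have h9 : 1 - (l : ℝ) * (l / (n + 1)) ≤ (1 - (l : ℝ) / (n + 1)) ^ l := by
        have := one_add_mul_le_pow (a := -((l : ℝ) / (n + 1))) (by linarith) l
        calc 1 - (l : ℝ) * (l / (n + 1)) = 1 + l * -((l : ℝ) / (n + 1)) := by ring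
          _ ≤ (1 + -((l : ℝ) / (n + 1))) ^ l := this
          _ = (1 - (l : ℝ) / (n + 1)) ^ l := by ring
      calc c ^ l * (1 - l * (l / (n + 1))) ≤ c ^ l * (1 - (l : ℝ) / (n + 1)) ^ l :=
            mul_le_mul_of_nonneg_left h9 (by positivity)
        _ = (c * (1 - (l : ℝ) / (n + 1))) ^ l := by rw [mul_pow]
        _ ≤ (((n : ℝ) + 1 - l) * ((n : ℝ) / c + 1)⁻¹) ^ l :=
            pow_le_pow_left₀ (mul_nonneg hc0.le h7) h4 _
        _ = ((n : ℝ) + 1 - l) ^ l * (((n : ℝ) / c + 1)⁻¹) ^ l := by rw [mul_pow]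
        _ ≤ _ := mul_le_mul_of_nonneg_right h1 (by positivity)
    have h10 : (2 * (l : ℝ))⁻¹ * (c ^ l * (1 - l * (l / (n + 1))))
        = (2 * (l : ℝ))⁻¹ * c ^ l - c ^ l * (l / (2 * (n + 1))) := by
      field_simp
    have h11 : c ^ l * ((l : ℝ) / (2 * (n + 1))) ≤ (2 * (T : ℝ) + 1) / (2 * (n + 1)) := by
      have h12 : c ^ l ≤ 1 := pow_le_one₀ hc0.le hc1
      have h13 : (l : ℝ) ≤ 2 * T + 1 := by exact_mod_cast hlT
      calc c ^ l * ((l : ℝ) / (2 * (n + 1))) ≤ 1 * ((l : ℝ) / (2 * (n + 1))) :=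
            mul_le_mul_of_nonneg_right h12 (by positivity)
        _ = (l : ℝ) / (2 * (n + 1)) := one_mul _
        _ ≤ _ := div_le_div_of_nonneg_right h13 (by positivity)
    have h14 := mul_le_mul_of_nonneg_left h8 (by positivity : (0 : ℝ) ≤ (2 * (l : ℝ))⁻¹)
    linarith
  have hsum := Finset.sum_le_sum fun (t : Fin T) (_ : t ∈ Finset.univ) => hterm t
  rw [Finset.sum_sub_distrib, Finset.sum_const, Finset.card_univ, Fintype.card_fin, nsmul_eq_mul] at hsum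
  have h15 : (T : ℝ) * ((2 * (T : ℝ) + 1) / (2 * (n + 1))) ≤ κ := by
    rw [← mul_div_assoc, div_le_iff₀ (by positivity)]
    rcases Nat.eq_zero_or_pos T with rfl | hT
    · simp only [Nat.cast_zero, ne_eq, OfNat.ofNat_ne_zero, not_false_eq_true, zero_pow, mul_zero] at hκ
      simp only [Nat.cast_zero, zero_mul]
      linarith
    · have hT' : (1 : ℝ) ≤ T := by exact_mod_cast hT
      nlinarith
  linarith

end Pool.Agent.H7.OC
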