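import Pool.Agent.H7.OC.Core
import Pool.Agent.H7.OC.Rate

set_option autoImplicit false

namespace Pool.Agent.H7.OC

open Finset Filter Topology Pool.Agent.H28R3

/-- the cube root of the logarithm -/
noncomputable def cl (n : ℕ) : ℝ := Real.log n ^ (1 / 3 : ℝ)

lemma cl_tendsto : Tendsto cl atTop atTop :=
  (tendsto_rpow_atTop (by norm_num)).comp (Real.tendsto_log_atTop.comp tendsto_natCast_atTop_atTop)

lemma cl_cube {n : ℕ} : cl n ^ 3 = Real.log n := by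
  unfold cl
  rw [← Real.rpow_natCast, ← Real.rpow_mul (Real.log_natCast_nonneg n)]
  norm_num

/-- Waiter wins for `q ≤ n / (c₀ + exp (- (log n)^(1/3) / 250))`. -/
theorem wins_rate {c₀ : ℝ} (h0 : 0.995 < c₀) (h1 : c₀ < 200 / 201) (h2 : fA c₀ = 2) :
    ∀ᶠ n : ℕ in atTop, ∀ q : ℕ, n ≤ q → (q : ℝ) ≤ n / (c₀ + Real.exp (-(cl n / 250))) →
      ∀ r, WaiterWins r n q := by
  have hL := cl_tendsto
  have hexp : Tendsto (fun n : ℕ => Real.exp (cl n / 250) / (cl n / 250)) atTop atTop := by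
    have hx : Tendsto (fun x : ℝ => Real.exp x / x) atTop atTop := by
      have := Real.tendsto_exp_div_pow_atTop 1
      simpa using this
    exact hx.comp (hL.atTop_div_const (by norm_num))
  have hexp2 : Tendsto (fun n : ℕ => Real.exp (cl n / 250)) atTop atTop :=
    Real.tendsto_exp_atTop.comp (hL.atTop_div_const (by norm_num))
  filter_upwards [hL.eventually_ge_atTop 1, hexp.eventually_ge_atTop 4000,
    hexp2.eventually_ge_atTop 2000, eventually_ge_atTop 1] with n hn1 hn2 hn3 hn4 q hq1 hq2 r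
  obtain ⟨L, hLdef⟩ : ∃ L, L = cl n := ⟨_, rfl⟩
  rw [← hLdef] at hn1 hn2 hn3 hq2
  have hL0 : 0 < L := by linarith
  have hlog : Real.log n = L ^ 3 := by rw [hLdef, cl_cube]
  have hn0 : (0 : ℝ) < n := by exact_mod_cast hn4
  obtain ⟨κ, hκdef⟩ : ∃ κ : ℝ, κ = Real.exp (-(L / 250)) := ⟨_, rfl⟩
  rw [← hκdef] at hq2
  have hκ0 : 0 < κ := by rw [hκdef]; exact Real.exp_pos _
  have hκinv : κ * Real.exp (L / 250) = 1 := by
    rw [hκdef, ← Real.exp_add]; simp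
  have hκ1 : κ ≤ 1 / 2000 := by
    rw [le_div_iff₀ (by norm_num)]
    nlinarith
  obtain ⟨T, hTdef⟩ : ∃ T : ℕ, T = ⌈L⌉₊ := ⟨_, rfl⟩
  have hTL : L ≤ T := by rw [hTdef]; exact Nat.le_ceil L
  have hTL2 : (T : ℝ) ≤ 2 * L := by
    have : (T : ℝ) ≤ L + 1 := by rw [hTdef]; exact (Nat.ceil_lt_add_one hL0.le).le
    linarith
  have hT1 : 1 ≤ T := by
    have : (1 : ℝ) ≤ T := by linarith
    exact_mod_cast this
  have hT1' : (1 : ℝ) ≤ T := by exact_mod_cast hT1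
  have h16 : 16 * L ≤ Real.exp (L / 250) := by
    rw [le_div_iff₀ (by positivity)] at hn2
    linarith
  obtain ⟨c, hc⟩ : ∃ c, c = c₀ + κ := ⟨_, rfl⟩
  rw [← hc] at hq2
  have hc0 : 0 < c := by linarith
  have hc995 : 0.995 < c := by linarith
  have hc996 : c ≤ 0.996 := by
    have : (200 : ℝ) / 201 ≤ 0.9951 := by norm_num
    rw [hc]; linarith
  have hc1 : c < 1 := by linarith
  -- the sum
  have hsl := fA_slope h0 (show c₀ ≤ c by linarith) hc1
  rw [h2] at hsl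
  have htail : c ^ (2 * T) / (1 - c ^ 2) ≤ κ := by
    have h3 : (0.0079 : ℝ) ≤ 1 - c ^ 2 := by nlinarith
    have h4 : c ^ (2 * T) ≤ κ * κ := by
      have e1 : c ≤ Real.exp (-0.004) := by
        have := Real.add_one_le_exp (-0.004 : ℝ)
        linarith
      calc c ^ (2 * T) ≤ (Real.exp (-0.004)) ^ (2 * T) := pow_le_pow_left₀ hc0.le e1 _
        _ = Real.exp (-(0.008 * T)) := by
            rw [← Real.exp_nat_mul]; congr 1; push_cast; ring
        _ ≤ Real.exp (-(L / 250) + -(L / 250)) := by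
            apply Real.exp_le_exp.mpr; linarith
        _ = κ * κ := by rw [hκdef, Real.exp_add]
    rw [div_le_iff₀ (by linarith)]
    nlinarith
  have hsum := fA_tail hc0 hc1 T
  have hsum4 : 1 + 4 * κ ≤ ∑ t : Fin T, (2 * ((2 * (t : ℕ) + 2 + 1 : ℕ) : ℝ))⁻¹
      * c ^ (2 * (t : ℕ) + 2 + 1) := by
    refine le_trans ?_ hsum
    rw [hc] at hsl htail ⊢
    linarith
  -- the size of n
  have h8T : 8 * T / κ ≤ Real.exp (L / 125) := by
    rw [div_le_iff₀ hκ0]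
    have e1 : Real.exp (L / 125) = Real.exp (L / 250) * Real.exp (L / 250) := by
      rw [← Real.exp_add]; congr 1; ring
    rw [e1]
    calc 8 * (T : ℝ) ≤ 16 * L := by linarith
      _ ≤ Real.exp (L / 250) := h16
      _ = Real.exp (L / 250) * Real.exp (L / 250) * κ := by
          rw [mul_assoc, mul_comm (Real.exp (L / 250)) κ, hκinv, mul_one]
  have hbig : (8 * T / κ) ^ (30 * T ^ 2) ≤ (n : ℝ) := by
    calc (8 * T / κ) ^ (30 * T ^ 2) ≤ (Real.exp (L / 125)) ^ (30 * T ^ 2) :=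
          pow_le_pow_left₀ (by positivity) h8T _
      _ = Real.exp (30 * (T : ℝ) ^ 2 * (L / 125)) := by
          rw [← Real.exp_nat_mul]; congr 1; push_cast; ring
      _ ≤ Real.exp (L ^ 3) := by
          apply Real.exp_le_exp.mpr
          have e1 : (T : ℝ) ^ 2 ≤ (2 * L) ^ 2 := pow_le_pow_left₀ (by positivity) hTL2 2
          have e2 : 30 * (T : ℝ) ^ 2 * (L / 125) ≤ 30 * (2 * L) ^ 2 * (L / 125) := by gcongr
          have e3 : 30 * (2 * L) ^ 2 * (L / 125) = 0.96 * L ^ 3 := by ring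
          have e4 : 0 < L ^ 3 := by positivity
          linarith
      _ = n := by rw [← hlog, Real.exp_log hn0]
  have hY8 : 8 * T ≤ 8 * (T : ℝ) / κ := by
    rw [le_div_iff₀ hκ0]; nlinarith
  have hY1 : 1 ≤ 8 * (T : ℝ) / κ := by linarith
  have hY3 : (8 * (T : ℝ) / κ) ^ 3 ≤ n := by
    refine le_trans (pow_le_pow_right₀ hY1 ?_) hbig
    have : 1 ≤ T ^ 2 := Nat.one_le_pow _ _ hT1
    omega
  have hTn : 2 * T + 1 ≤ n := by
    have e1 : (2 * (T : ℝ) + 1) ≤ (8 * (T : ℝ) / κ) ^ 3 := by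
      calc (2 * (T : ℝ) + 1) ≤ 8 * T / κ := by linarith
        _ ≤ (8 * (T : ℝ) / κ) ^ 3 := le_self_pow₀ hY1 (by norm_num)
    have e2 : ((2 * T + 1 : ℕ) : ℝ) ≤ n := by push_cast; linarith
    exact_mod_cast e2
  have hκn : 3 * (T : ℝ) ^ 2 ≤ κ * (n + 1) := by
    have e1 : (8 * (T : ℝ) / κ) ^ 3 * κ = 512 * T ^ 3 / κ ^ 2 := by field_simp; norm_num
    have e2 : 3 * (T : ℝ) ^ 2 ≤ 512 * T ^ 3 / κ ^ 2 := by
      rw [le_div_iff₀ (by positivity)]
      have e3 : κ ^ 2 ≤ 1 := pow_le_one₀ hκ0.le (by linarith)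
      have e4 : (T : ℝ) ^ 2 ≤ T ^ 3 := pow_le_pow_right₀ hT1' (by norm_num)
      have e5 : (0 : ℝ) ≤ T ^ 2 := sq_nonneg _
      calc 3 * (T : ℝ) ^ 2 * κ ^ 2 ≤ 3 * (T : ℝ) ^ 2 * 1 := mul_le_mul_of_nonneg_left e3 (by positivity)
        _ ≤ 512 * T ^ 3 := by linarith
    calc 3 * (T : ℝ) ^ 2 ≤ 512 * T ^ 3 / κ ^ 2 := e2
      _ = (8 * (T : ℝ) / κ) ^ 3 * κ := e1.symm
      _ ≤ n * κ := mul_le_mul_of_nonneg_right hY3 hκ0.le
      _ ≤ κ * (n + 1) := by linarith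
  have hs := sum_n hc0 hc1.le hn4 hTn hκn hsum4
  exact core hc0 (by linarith) hT1 hκ0 (by linarith) hs hbig hq1 hq2 r

/-- The lower bound for the threshold. -/
theorem threshold_rate {c₀ : ℝ} (h0 : 0.995 < c₀) (h1 : c₀ < 200 / 201) (h2 : fA c₀ = 2) :
    ∀ᶠ n : ℕ in atTop, ∀ r, (n : ℝ) / c₀ - n * Real.exp (-(cl n / 300)) ≤ threshold r n ∧
      ∀ q : ℕ, n ≤ q → (q : ℝ) ≤ n / c₀ - n * Real.exp (-(cl n / 300)) → WaiterWins r n q := by
  have hL := cl_tendsto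
  have hexp2 : Tendsto (fun n : ℕ => Real.exp (cl n / 1500)) atTop atTop :=
    Real.tendsto_exp_atTop.comp (hL.atTop_div_const (by norm_num))
  have hnk : ∀ᶠ n : ℕ in atTop, 1 ≤ n * Real.exp (-(cl n / 250)) := by
    filter_upwards [hL.eventually_ge_atTop 1, eventually_ge_atTop 1] with n hn hn1
    have hn0 : (0 : ℝ) < n := by exact_mod_cast hn1
    have e1 : (n : ℝ) = Real.exp (cl n ^ 3) := by rw [cl_cube, Real.exp_log hn0]
    have e2 : cl n ≤ cl n ^ 3 := le_self_pow₀ hn (by norm_num)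
    calc (1 : ℝ) = Real.exp 0 := (Real.exp_zero).symm
      _ ≤ Real.exp (cl n ^ 3 + -(cl n / 250)) := Real.exp_le_exp.mpr (by linarith)
      _ = Real.exp (cl n ^ 3) * Real.exp (-(cl n / 250)) := Real.exp_add _ _
      _ = n * Real.exp (-(cl n / 250)) := by rw [← e1]
  filter_upwards [wins_rate h0 h1 h2, hexp2.eventually_ge_atTop 4, hnk, hL.eventually_ge_atTop 0,
    hexp2.eventually_ge_atTop 1000, eventually_ge_atTop 1] with n hw hn2 hn3 hn5 hn6 hn4 r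
  have hn0 : (0 : ℝ) < n := by exact_mod_cast hn4
  obtain ⟨κ, hκ⟩ : ∃ κ, κ = Real.exp (-(cl n / 250)) := ⟨_, rfl⟩
  obtain ⟨κ', hκ'⟩ : ∃ κ', κ' = Real.exp (-(cl n / 300)) := ⟨_, rfl⟩
  rw [← hκ] at hw hn3
  rw [← hκ']
  have hκ0 : 0 < κ := by rw [hκ]; exact Real.exp_pos _
  have hκκ : 4 * κ ≤ κ' := by
    have e1 : κ' = Real.exp (cl n / 1500) * κ := by
      rw [hκ, hκ', ← Real.exp_add]; congr 1; ring
    rw [e1]
    exact mul_le_mul_of_nonneg_right hn2 hκ0.le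
  have hc : 0 < c₀ := by linarith
  have hcc : 0 < c₀ + κ := by linarith
  -- n / (c₀ + κ) ≥ n / c₀ - 2 n κ
  have hdiv : (n : ℝ) / c₀ - 2 * (n * κ) ≤ n / (c₀ + κ) := by
    rw [le_div_iff₀ hcc]
    have e1 : (n : ℝ) / c₀ * (c₀ + κ) = n + n * κ / c₀ := by field_simp
    have e2 : (n : ℝ) * κ / c₀ ≤ n * κ * 1.01 := by
      rw [div_le_iff₀ hc]
      have : 0 < (n : ℝ) * κ := by positivity
      nlinarith
    have e3 : 0 < (n : ℝ) * κ := by positivity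
    nlinarith
  have hnκ : 4 * ((n : ℝ) * κ) ≤ n * κ' := by nlinarith
  have hq : ∀ q : ℕ, n ≤ q → (q : ℝ) ≤ n / c₀ - n * κ' → WaiterWins r n q := by
    intro q hq1 hq2
    refine hw q hq1 ?_ r
    have : 0 < (n : ℝ) * κ := by positivity
    linarith
  refine ⟨?_, hq⟩
  have hκsmall : κ ≤ 0.001 := by
    have e1 : κ * Real.exp (cl n / 250) = 1 := by rw [hκ, ← Real.exp_add]; simp
    have e2 : Real.exp (cl n / 1500) ≤ Real.exp (cl n / 250) := Real.exp_le_exp.mpr (by linarith)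
    nlinarith
  have hge : (n : ℝ) ≤ n / (c₀ + κ) := by
    rw [le_div_iff₀ hcc]
    have : c₀ + κ ≤ 1 := by
      have : (200 : ℝ) / 201 ≤ 0.996 := by norm_num
      linarith
    nlinarith
  have h3 : n ≤ ⌊(n : ℝ) / (c₀ + κ)⌋₊ := Nat.le_floor hge
  have h4 : ((⌊(n : ℝ) / (c₀ + κ)⌋₊ : ℕ) : ℝ) ≤ n / (c₀ + κ) := Nat.floor_le (by positivity)
  have h5 := le_threshold (by omega) (hw _ h3 h4 r)
  have h6 := Nat.lt_floor_add_one ((n : ℝ) / (c₀ + κ))
  have h7 : ((⌊(n : ℝ) / (c₀ + κ)⌋₊ : ℕ) : ℝ) ≤ threshold r n := by exact_mod_cast h5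
  have : 0 < (n : ℝ) * κ := by positivity
  linarith

/-- The upper bound for the threshold when Waiter takes the rest. -/
theorem threshold_le {c₀ : ℝ} (h0 : 0.995 < c₀) (h1 : c₀ < 200 / 201) (h2 : fA c₀ = 2) (n : ℕ) :
    (threshold LastRound.waiterTakesAll n : ℝ) ≤ n / c₀ := by
  have hc : 0 < c₀ := by linarith
  have hc1 : c₀ < 1 := by
    have : (200 : ℝ) / 201 < 1 := by norm_num
    linarith
  by_contra hcon
  push Not at hcon
  set t : ℝ := (threshold LastRound.waiterTakesAll n : ℝ) with ht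
  have ht0 : 0 < t := lt_of_le_of_lt (by positivity) hcon
  have h3 : (n : ℝ) / t < c₀ := by
    rw [div_lt_iff₀ ht0]
    rw [div_lt_iff₀ hc] at hcon
    linarith
  obtain ⟨c, hc3, hc4⟩ := exists_between h3
  have hc5 : 0 < c := lt_of_le_of_lt (by positivity) hc3
  have h4 := threshold_upper hc5 (by linarith) (show fA c < 2 by
    rw [← h2]; exact fA_mono ⟨hc5.le, by linarith⟩ ⟨hc.le, hc1⟩ hc4) n
  rw [← ht] at h4
  rw [div_lt_iff₀ ht0] at hc3
  rw [le_div_iff₀ hc5] at h4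
  linarith

/-- Client wins above the threshold if there is no incomplete round. -/
theorem client_dvd {c₀ : ℝ} (h0 : 0.995 < c₀) (h1 : c₀ < 200 / 201) (h2 : fA c₀ = 2) {n q : ℕ}
    (hq : (n : ℝ) < c₀ * (q + 1)) (hdvd : q + 1 ∣ n.choose 2) (r : LastRound) :
    ¬ WaiterWins r n q := by
  have hc : 0 < c₀ := by linarith
  have hc1 : c₀ < 1 := by
    have : (200 : ℝ) / 201 < 1 := by norm_num
    linarith
  have hq0 : (0 : ℝ) < (q : ℝ) + 1 := by positivity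
  have h3 : (n : ℝ) / (q + 1) < c₀ := by rw [div_lt_iff₀ hq0]; exact hq
  obtain ⟨c, hc3, hc4⟩ := exists_between h3
  have hc5 : 0 < c := lt_of_le_of_lt (by positivity) hc3
  refine client_wins_dvd hc5 (by linarith) ?_ (show fA c < 2 by
    rw [← h2]; exact fA_mono ⟨hc5.le, by linarith⟩ ⟨hc.le, hc1⟩ hc4) hdvd
  rw [div_lt_iff₀ hq0] at hc3
  push_cast
  exact hc3.le

/-- The literal convention: the power `6 / 5` for all large `n`. -/
theorem threshold_power : ∃ c : ℝ, 0 < c ∧ ∀ᶠ n : ℕ in atTop,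
    c * (n : ℝ) ^ (6 / 5 : ℝ) ≤ threshold LastRound.clientTakesOne n := by
  refine ⟨1 / 80, by norm_num, ?_⟩
  have hK : Tendsto (fun n : ℕ => ((n : ℝ) / 2560000) ^ (1 / 5 : ℝ)) atTop atTop :=
    (tendsto_rpow_atTop (by norm_num)).comp (tendsto_natCast_atTop_atTop.atTop_div_const (by norm_num))
  filter_upwards [hK.eventually_ge_atTop 2, eventually_ge_atTop 1] with n hn hn1
  have hn0 : (0 : ℝ) < n := by exact_mod_cast hn1
  obtain ⟨y, hy⟩ : ∃ y, y = ((n : ℝ) / 2560000) ^ (1 / 5 : ℝ) := ⟨_, rfl⟩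
  rw [← hy] at hn
  have hy5 : y ^ 5 = n / 2560000 := by
    rw [hy, ← Real.rpow_natCast, ← Real.rpow_mul (by positivity)]
    norm_num
  obtain ⟨u, hu⟩ : ∃ u : ℕ, u = ⌊y⌋₊ := ⟨_, rfl⟩
  have hu1 : (u : ℝ) ≤ y := by rw [hu]; exact Nat.floor_le (by linarith)
  have hu2 : y < u + 1 := by rw [hu]; exact Nat.lt_floor_add_one y
  have hu3 : y / 2 ≤ u := by linarith
  have hu4 : 1 ≤ u := by
    have : (1 : ℝ) ≤ u := by linarith
    exact_mod_cast this
  have h5 : 2560000 * u ^ 5 ≤ n := by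
    have e1 : (u : ℝ) ^ 5 ≤ y ^ 5 := pow_le_pow_left₀ (by positivity) hu1 5
    rw [hy5] at e1
    have e2 : ((2560000 * u ^ 5 : ℕ) : ℝ) ≤ n := by
      push_cast
      rw [le_div_iff₀ (by norm_num)] at e1
      linarith
    exact_mod_cast e2
  obtain ⟨q, hq1, hq2⟩ := wins_large hu4 h5
  have hq3 : 1 ≤ q := by
    have : 1 ≤ u * n := Nat.mul_pos hu4 hn1
    omega
  have h6 := le_threshold hq3 hq2
  have h7 : (q : ℝ) ≤ threshold LastRound.clientTakesOne n := by exact_mod_cast h6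
  have h8 : (u : ℝ) * n ≤ 2 * q := by exact_mod_cast hq1
  -- n^(6/5) = n * n^(1/5)
  have h9 : (n : ℝ) ^ (6 / 5 : ℝ) ≤ n * (20 * y) := by
    have e1 : (n : ℝ) ^ (6 / 5 : ℝ) = n * (n : ℝ) ^ (1 / 5 : ℝ) := by
      rw [show (6 / 5 : ℝ) = 1 + 1 / 5 by norm_num, Real.rpow_add hn0, Real.rpow_one]
    have e2 : (n : ℝ) ^ (1 / 5 : ℝ) ≤ 20 * y := by
      have e3 : (n : ℝ) = 2560000 * (n / 2560000) := by field_simp
      calc (n : ℝ) ^ (1 / 5 : ℝ) = (2560000 * (n / 2560000)) ^ (1 / 5 : ℝ) := by rw [← e3]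
        _ = (2560000 : ℝ) ^ (1 / 5 : ℝ) * y := by rw [Real.mul_rpow (by norm_num) (by positivity), hy]
        _ ≤ 20 * y := by
          apply mul_le_mul_of_nonneg_right _ (by linarith)
          calc (2560000 : ℝ) ^ (1 / 5 : ℝ) ≤ ((20 : ℝ) ^ (5 : ℝ)) ^ (1 / 5 : ℝ) := by
                apply Real.rpow_le_rpow (by norm_num) _ (by norm_num)
                norm_num
            _ = 20 := by rw [← Real.rpow_mul (by norm_num)]; norm_num
    rw [e1]
    exact mul_le_mul_of_nonneg_left e2 hn0.le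
  nlinarith

/-- The literal convention: the order `n ^ (3 / 2)` for infinitely many `n`. -/
theorem threshold_special {v : ℕ} (hv : 1 ≤ v) :
    ((60 * v ^ 2 + 2 : ℕ) : ℝ) ^ (3 / 2 : ℝ) / 8
      ≤ threshold LastRound.clientTakesOne (60 * v ^ 2 + 2) := by
  have hv3 : 1 ≤ v ^ 3 := Nat.one_le_pow _ _ hv
  have h1 := le_threshold (by omega) (wins_special hv)
  have h2 : (((60 * v ^ 3 + 3 * v - 1 : ℕ)) : ℝ)
      ≤ threshold LastRound.clientTakesOne (60 * v ^ 2 + 2) := by exact_mod_cast h1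
  refine le_trans ?_ h2
  have h3 : ((60 * v ^ 3 + 3 * v - 1 : ℕ) : ℝ) = 60 * (v : ℝ) ^ 3 + 3 * v - 1 := by
    rw [Nat.cast_sub (by omega)]; push_cast; ring
  rw [h3]
  have hvr : (1 : ℝ) ≤ v := by exact_mod_cast hv
  have hv2 : (v : ℝ) ≤ v ^ 3 := le_self_pow₀ hvr (by norm_num)
  rw [div_le_iff₀ (by norm_num)]
  have h4 : ((60 * v ^ 2 + 2 : ℕ) : ℝ) ^ (3 / 2 : ℝ) = √(((60 * v ^ 2 + 2 : ℕ) : ℝ) ^ 3) := by
    rw [Real.sqrt_eq_rpow, ← Real.rpow_natCast, ← Real.rpow_mul (by positivity)]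
    norm_num
  rw [h4]
  apply Real.sqrt_le_iff.mpr
  constructor
  · nlinarith
  · push_cast
    have e1 : (1 : ℝ) ≤ v ^ 2 := one_le_pow₀ hvr
    have e2 : (v : ℝ) ^ 3 ≤ v ^ 6 := pow_le_pow_right₀ hvr (by norm_num)
    have e3 : (v : ℝ) ^ 2 ≤ v ^ 6 := pow_le_pow_right₀ hvr (by norm_num)
    have e4 : (v : ℝ) ≤ v ^ 6 := le_self_pow₀ hvr (by norm_num)
    have e5 : (0 : ℝ) ≤ v ^ 4 := by positivity
    have e6 : (60 * (v : ℝ) ^ 2 + 2) ^ 3
        = 216000 * v ^ 6 + 21600 * v ^ 4 + 720 * v ^ 2 + 8 := by ring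
    have e7 : ((60 * (v : ℝ) ^ 3 + 3 * v - 1) * 8) ^ 2
        = 230400 * v ^ 6 + 23040 * v ^ 4 - 7680 * v ^ 3 + 576 * v ^ 2 - 384 * v + 64 := by ring
    rw [e6, e7]
    nlinarith

/-- The upper bound `n ^ (3 / 2)` for both conventions. -/
theorem threshold_cube (r : LastRound) (n : ℕ) : (threshold r n : ℝ) ≤ (n : ℝ) ^ (3 / 2 : ℝ) := by
  have h1 : (threshold r n) ^ 2 ≤ n ^ 3 := by
    have h2 : threshold r n ≤ Nat.sqrt (n ^ 3) := by
      unfold threshold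
      apply csSup_le'
      rintro q ⟨-, hq⟩
      rw [Nat.le_sqrt']
      by_contra hcon
      push Not at hcon
      refine client_wins_cube (r := r) (n := n) (q := q) ?_ hq
      calc n ^ 3 < q ^ 2 := hcon
        _ ≤ (q + 1) ^ 2 := Nat.pow_le_pow_left (by omega) 2
    exact Nat.le_sqrt'.mp h2
  have h4 : ((n : ℕ) : ℝ) ^ (3 / 2 : ℝ) = √(((n : ℕ) : ℝ) ^ 3) := by
    rw [Real.sqrt_eq_rpow, ← Real.rpow_natCast, ← Real.rpow_mul (by positivity)]
    norm_num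
  rw [h4]
  apply Real.le_sqrt_of_sq_le
  exact_mod_cast h1

/-- In the literal convention the game is not monotone in the bias. -/
theorem not_monotone {c₀ : ℝ} (h0 : 0.995 < c₀) (h1 : c₀ < 200 / 201) (h2 : fA c₀ = 2) {w : ℕ}
    (hw : 2 ≤ w) (r : LastRound) : ∃ n q₁ q₂ : ℕ, n = 60 * (31 * w + 1) ^ 2 + 2 ∧ q₁ < q₂ ∧
      ¬ WaiterWins r n q₁ ∧ WaiterWins LastRound.clientTakesOne n q₂ := by
  obtain ⟨v, hv⟩ : ∃ v, v = 31 * w + 1 := ⟨_, rfl⟩
  have hv32 : 32 ≤ v := by omega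
  refine ⟨60 * v ^ 2 + 2, 31 * (60 * v ^ 2 + 1) - 1, 60 * v ^ 3 + 3 * v - 1, by rw [hv], ?_, ?_,
    wins_special (by omega)⟩
  · have e1 : 32 * v ^ 2 ≤ v ^ 3 := by
      calc 32 * v ^ 2 ≤ v * v ^ 2 := Nat.mul_le_mul_right _ hv32
        _ = v ^ 3 := by ring
    have e2 : v ≤ v ^ 2 := Nat.le_self_pow (by norm_num) v
    omega
  · apply client_dvd h0 h1 h2
    · have e1 : (((31 * (60 * v ^ 2 + 1) - 1 : ℕ)) : ℝ) + 1 = 31 * (60 * (v : ℝ) ^ 2 + 1) := by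
        rw [Nat.cast_sub (by omega)]; push_cast; ring
      rw [e1]
      push_cast
      have e2 : (0 : ℝ) ≤ (v : ℝ) ^ 2 := sq_nonneg _
      nlinarith
    · have e1 : 31 * (60 * v ^ 2 + 1) - 1 + 1 = 31 * (60 * v ^ 2 + 1) := by omega
      rw [e1]
      have e2 : 31 ∣ 30 * v ^ 2 + 1 := by
        rw [hv]
        exact ⟨930 * w ^ 2 + 60 * w + 1, by ring⟩
      obtain ⟨z, hz⟩ := e2
      refine ⟨z, ?_⟩
      have h3 : 2 * (60 * v ^ 2 + 1 + 1).choose 2 = (60 * v ^ 2 + 1 + 1) * (60 * v ^ 2 + 1) :=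
        two_mul_choose _
      have h4 : 60 * v ^ 2 + 1 + 1 = 60 * v ^ 2 + 2 := by ring
      rw [h4] at h3
      have h5 : (60 * v ^ 2 + 2) * (60 * v ^ 2 + 1) = 2 * ((30 * v ^ 2 + 1) * (60 * v ^ 2 + 1)) := by ring
      rw [h5, hz] at h3
      have h6 : (60 * v ^ 2 + 2).choose 2 = 31 * z * (60 * v ^ 2 + 1) := by omega
      rw [h6]; ring

end Pool.Agent.H7.OC
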