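import Pool.Agent.H7.OC.Cherry

set_option autoImplicit false

namespace Pool.Agent.H7.OC

open Finset Pool.Agent.H28R3

lemma two_mul_choose (n : ℕ) : 2 * (n + 1).choose 2 = (n + 1) * n := by
  rw [Nat.choose_two_right, Nat.add_sub_cancel]
  have h : Even ((n + 1) * n) := by
    rw [mul_comm]; exact Nat.even_mul_succ_self n
  exact Nat.mul_div_cancel' h.two_dvd

section Ineq

variable {u v x k₀ n c2 r q t : ℤ}

lemma iq_k₀ (hu : 1 ≤ u) (hn : 2560000 * u ^ 5 ≤ n) (hnk : n = 2 * u * k₀ + v + 1)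
    (hv : v + 1 ≤ 2 * u) : 1000000 * u ^ 4 ≤ k₀ := by
  have h2 : u * (2560000 * u ^ 4) ≤ u * (2 * k₀ + 2) := by
    calc u * (2560000 * u ^ 4) = 2560000 * u ^ 5 := by ring
      _ ≤ 2 * u * k₀ + 2 * u := by linarith
      _ = u * (2 * k₀ + 2) := by ring
  have h3 := le_of_mul_le_mul_left h2 (by omega : (0 : ℤ) < u)
  have h4 : 1 ≤ u ^ 4 := one_le_pow₀ hu
  linarith

lemma iq_pow (hu : 1 ≤ u) : u ≤ u ^ 2 ∧ u ^ 2 ≤ u ^ 3 ∧ u ^ 3 ≤ u ^ 4 ∧ u ^ 4 ≤ u ^ 5 := by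
  refine ⟨?_, pow_le_pow_right₀ hu (by norm_num), pow_le_pow_right₀ hu (by norm_num),
    pow_le_pow_right₀ hu (by norm_num)⟩
  calc u = u ^ 1 := (pow_one u).symm
    _ ≤ u ^ 2 := pow_le_pow_right₀ hu (by norm_num)

lemma iq_vu (hu : 1 ≤ u) (hv : v + 1 ≤ 2 * u) : u * (2 * v + 1) + 1 ≤ 4 * u ^ 2 := by
  have h1 : u * (2 * v + 1) ≤ u * (4 * u - 1) := mul_le_mul_of_nonneg_left (by linarith) (by omega)
  have h2 : u * (4 * u - 1) = 4 * u ^ 2 - u := by ring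
  linarith

lemma iq_c2 (hu : 1 ≤ u) (hv0 : 0 ≤ v) (hv : v + 1 ≤ 2 * u) (hc : 2 * c2 = (v + 1) * v) :
    c2 ≤ 2 * u ^ 2 := by
  have h1 : (v + 1) * v ≤ (2 * u) * (2 * u) := mul_le_mul hv (by linarith) hv0 (by omega)
  have h2 : (2 * u) * (2 * u) = 4 * u ^ 2 := by ring
  linarith

lemma iq_xk (hu : 1 ≤ u) (hk : 1000000 * u ^ 4 ≤ k₀) (hx : 0 ≤ x)
    (hux : 2 * u ^ 2 * x ^ 2 ≤ k₀) : x + 1 ≤ k₀ := by
  have h1 : 1 ≤ u ^ 2 := one_le_pow₀ hu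
  have h4 : 1 ≤ u ^ 4 := one_le_pow₀ hu
  have h2 : x ^ 2 ≤ u ^ 2 * x ^ 2 := le_mul_of_one_le_left (sq_nonneg x) h1
  nlinarith

lemma iq_x2 (hu : 1 ≤ u) (hx : 0 ≤ x) (hux : 2 * u ^ 2 * x ^ 2 ≤ k₀) :
    2 * u ^ 2 * (x + 1) ≤ k₀ + 2 * u ^ 2 := by
  have h1 : x ≤ x ^ 2 := by
    rcases hx.eq_or_lt with h | h
    · rw [← h]; norm_num
    · have : 1 ≤ x := h
      nlinarith
  have h2 : 2 * u ^ 2 * x ≤ 2 * u ^ 2 * x ^ 2 := mul_le_mul_of_nonneg_left h1 (by positivity)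
  linarith

lemma iq_key (hu : 1 ≤ u) (hn : 2560000 * u ^ 5 ≤ n) (hx : 0 ≤ x)
    (hux : 2 * u ^ 2 * x ^ 2 ≤ k₀) (hkn : 2 * u * k₀ ≤ n) : 3200 * (u ^ 4 * x) ≤ n := by
  have hn0 : 0 ≤ n := le_trans (by positivity) hn
  have h1 : 4 * u ^ 3 * x ^ 2 ≤ n := by
    have h2 : 2 * u * (2 * u ^ 2 * x ^ 2) ≤ 2 * u * k₀ := mul_le_mul_of_nonneg_left hux (by omega)
    calc 4 * u ^ 3 * x ^ 2 = 2 * u * (2 * u ^ 2 * x ^ 2) := by ring
      _ ≤ 2 * u * k₀ := h2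
      _ ≤ n := hkn
  have h2 : (3200 * (u ^ 4 * x)) ^ 2 ≤ n ^ 2 := by
    have e : (3200 * (u ^ 4 * x)) ^ 2 = (2560000 * u ^ 5) * (4 * u ^ 3 * x ^ 2) := by ring
    rw [e, sq n]
    exact mul_le_mul hn h1 (by positivity) hn0
  exact (pow_le_pow_iff_left₀ (by positivity) hn0 (by norm_num)).mp h2

lemma iq_rh (hu : 1 ≤ u) (hn : 2560000 * u ^ 5 ≤ n) (hkey : 3200 * (u ^ 4 * x) ≤ n)
    (hr : r ≤ 4 * u ^ 2 * x + 8 * u ^ 2) : 4 * (r * (100 * u ^ 2)) ≤ n := by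
  have h1 : r * (100 * u ^ 2) ≤ (4 * u ^ 2 * x + 8 * u ^ 2) * (100 * u ^ 2) :=
    mul_le_mul_of_nonneg_right hr (by positivity)
  have h2 : (4 * u ^ 2 * x + 8 * u ^ 2) * (100 * u ^ 2) = 400 * (u ^ 4 * x) + 800 * u ^ 4 := by ring
  have h3 := (iq_pow hu).2.2.2
  have h4 : 1 ≤ u ^ 5 := one_le_pow₀ hu
  linarith

lemma iq_qle (hu : 1 ≤ u) (hk : 1000000 * u ^ 4 ≤ k₀) (hkn : 2 * u * k₀ ≤ n)
    (hx2 : 2 * u ^ 2 * (x + 1) ≤ k₀ + 2 * u ^ 2) (hvu : u * (2 * v + 1) + 1 ≤ 4 * u ^ 2)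
    (ht : k₀ = t + (x + 1))
    (hq : q + 1 = 2 * u ^ 2 * (t + 2 * (x + 1)) + u * (2 * v + 1) + 1) : q + 1 ≤ 2 * (u * n) := by
  have h1 : q + 1 = u * (2 * u * k₀) + 2 * u ^ 2 * (x + 1) + (u * (2 * v + 1) + 1) := by
    rw [hq, ht]; ring
  have h3 : u * (2 * u * k₀) ≤ u * n := mul_le_mul_of_nonneg_left hkn (by omega)
  obtain ⟨p1, p2, p3, p4⟩ := iq_pow hu
  have h5 : k₀ ≤ u * (u * k₀) := by
    have : 1 * k₀ ≤ u * u * k₀ := mul_le_mul_of_nonneg_right (by nlinarith) (by nlinarith)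
    calc k₀ = 1 * k₀ := (one_mul _).symm
      _ ≤ u * u * k₀ := this
      _ = u * (u * k₀) := by ring
  have h6 : 2 * (u * (u * k₀)) ≤ u * n := by
    calc 2 * (u * (u * k₀)) = u * (2 * u * k₀) := by ring
      _ ≤ u * n := h3
  linarith

lemma iq_qge (hu : 1 ≤ u) (hn : 2560000 * u ^ 5 ≤ n) (hnk : n = 2 * u * k₀ + v + 1)
    (hx : 0 ≤ x) (hv0 : 0 ≤ v) (hv : v + 1 ≤ 2 * u) (ht : k₀ = t + (x + 1))
    (hq : q + 1 = 2 * u ^ 2 * (t + 2 * (x + 1)) + u * (2 * v + 1) + 1) : u * n ≤ 2 * q := by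
  have h1 : q = u * (2 * u * k₀) + 2 * u ^ 2 * (x + 1) + (u * (2 * v + 1)) := by
    have : q = (q + 1) - 1 := by ring
    rw [this, hq, ht]; ring
  have h3 : u * (n - 2 * u) ≤ u * (2 * u * k₀) := mul_le_mul_of_nonneg_left (by linarith) (by omega)
  have h4 : 0 ≤ 2 * u ^ 2 * (x + 1) + (u * (2 * v + 1)) := by positivity
  obtain ⟨p1, p2, p3, p4⟩ := iq_pow hu
  have h6 : u * (4 * u) ≤ u * n := mul_le_mul_of_nonneg_left (by linarith) (by omega)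
  have h7 : u * (n - 2 * u) = u * n - 2 * u ^ 2 := by ring
  have h8 : u * (4 * u) = 4 * u ^ 2 := by ring
  linarith

end Ineq

/-- The numerology behind the superlinear lower bound: the decomposition. -/
lemma decomp {u n : ℕ} (hu : 1 ≤ u) (hn : 2560000 * u ^ 5 ≤ n) :
    ∃ q r t : ℕ, 1 ≤ r ∧ n.choose 2 = r + t * (q + 1) ∧ q + 1 ≤ 2 * (u * n) ∧ u * n ≤ 2 * q ∧
      4 * (r * (100 * u ^ 2)) ≤ n := by
  classical
  -- n = 2 u k₀ + v + 1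
  obtain ⟨k₀, v, hv, hnk⟩ : ∃ k₀ v : ℕ, v < 2 * u ∧ n = 2 * u * k₀ + v + 1 := by
    refine ⟨(n - 1) / (2 * u), (n - 1) % (2 * u), Nat.mod_lt _ (by omega), ?_⟩
    have h1 := Nat.div_add_mod (n - 1) (2 * u)
    have h2 : 1 ≤ n := by
      have : 1 ≤ u ^ 5 := Nat.one_le_pow _ _ hu
      omega
    omega
  have hu1 : (1 : ℤ) ≤ u := by exact_mod_cast hu
  have hnz : (2560000 : ℤ) * u ^ 5 ≤ n := by exact_mod_cast hn
  have hnkz : (n : ℤ) = 2 * u * k₀ + v + 1 := by exact_mod_cast hnk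
  have hvz : (v : ℤ) + 1 ≤ 2 * u := by exact_mod_cast hv
  have hv0 : (0 : ℤ) ≤ v := Int.natCast_nonneg v
  have hk₀ := iq_k₀ hu1 hnz hnkz hvz
  obtain ⟨c2, hc2⟩ : ∃ c2, c2 = (v + 1).choose 2 := ⟨_, rfl⟩
  have hc2z : 2 * (c2 : ℤ) = (v + 1) * v := by rw [hc2]; exact_mod_cast two_mul_choose v
  have hc2le := iq_c2 hu1 hv0 hvz hc2z
  -- the shift j
  have hex : ∃ j : ℕ, k₀ + 1 ≤ 2 * u ^ 2 * j ^ 2 + (u * (2 * v + 1) + 1) * j + c2 := by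
    refine ⟨k₀ + 1, ?_⟩
    have h1 : k₀ + 1 ≤ (u * (2 * v + 1) + 1) * (k₀ + 1) := Nat.le_mul_of_pos_left _ (by positivity)
    omega
  obtain ⟨j, hj⟩ : ∃ j, j = Nat.find hex := ⟨_, rfl⟩
  have hj1 := Nat.find_spec hex
  rw [← hj] at hj1
  have hk4 : (1 : ℤ) ≤ (u : ℤ) ^ 4 := one_le_pow₀ hu1
  have hu24 : (u : ℤ) ^ 2 ≤ (u : ℤ) ^ 4 := pow_le_pow_right₀ hu1 (by norm_num)
  have hj0 : j ≠ 0 := by
    intro h0
    rw [h0] at hj1
    have : (k₀ : ℤ) + 1 ≤ c2 := by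
      have h2 : k₀ + 1 ≤ c2 := by simpa using hj1
      exact_mod_cast h2
    linarith
  obtain ⟨x, hx⟩ : ∃ x, j = x + 1 := ⟨j - 1, by omega⟩
  have hj2 := Nat.find_min hex (show x < Nat.find hex by rw [← hj]; omega)
  push Not at hj2
  have hj1z : (k₀ : ℤ) + 1 ≤ 2 * u ^ 2 * (x + 1) ^ 2 + (u * (2 * v + 1) + 1) * (x + 1) + c2 := by
    rw [hx] at hj1
    exact_mod_cast hj1
  have hj2z : 2 * (u : ℤ) ^ 2 * x ^ 2 + (u * (2 * v + 1) + 1) * x + c2 ≤ k₀ := by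
    have : 2 * u ^ 2 * x ^ 2 + (u * (2 * v + 1) + 1) * x + c2 ≤ k₀ := by omega
    exact_mod_cast this
  have hx0 : (0 : ℤ) ≤ x := Int.natCast_nonneg x
  have hc20 : (0 : ℤ) ≤ c2 := Int.natCast_nonneg c2
  have hux : 2 * (u : ℤ) ^ 2 * x ^ 2 ≤ k₀ := by
    have : 0 ≤ ((u : ℤ) * (2 * v + 1) + 1) * x := by positivity
    linarith
  have hxk := iq_xk hu1 hk₀ hx0 hux
  obtain ⟨t, ht⟩ : ∃ t : ℕ, k₀ = t + (x + 1) := by
    refine ⟨k₀ - (x + 1), ?_⟩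
    have : x + 1 ≤ k₀ := by exact_mod_cast hxk
    omega
  have htz : (k₀ : ℤ) = t + (x + 1) := by exact_mod_cast ht
  obtain ⟨r, hr⟩ : ∃ r : ℕ, (r : ℤ)
      = 2 * u ^ 2 * (x + 1) ^ 2 + (u * (2 * v + 1) + 1) * (x + 1) + c2 - k₀ := by
    refine ⟨(2 * (u : ℤ) ^ 2 * (x + 1) ^ 2 + (u * (2 * v + 1) + 1) * (x + 1) + c2 - k₀).toNat, ?_⟩
    rw [Int.toNat_of_nonneg (by linarith)]
  have hr1 : (1 : ℤ) ≤ r := by linarith
  have hvu := iq_vu hu1 hvz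
  have hrle : (r : ℤ) ≤ 4 * u ^ 2 * x + 8 * u ^ 2 := by
    have h1 : (r : ℤ) = (2 * u ^ 2 * x ^ 2 + (u * (2 * v + 1) + 1) * x + c2 - k₀)
      + (2 * u ^ 2 * (2 * x + 1) + (u * (2 * v + 1) + 1)) := by rw [hr]; ring
    have h2 : 2 * (u : ℤ) ^ 2 * (2 * x + 1) = 4 * u ^ 2 * x + 2 * u ^ 2 := by ring
    have h3 : (0 : ℤ) ≤ u ^ 2 := sq_nonneg _
    linarith
  -- the bias
  obtain ⟨q, hq⟩ : ∃ q : ℕ, q = 2 * u ^ 2 * (t + 2 * (x + 1)) + u * (2 * v + 1) := ⟨_, rfl⟩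
  have hqz : (q : ℤ) + 1 = 2 * u ^ 2 * (t + 2 * (x + 1)) + u * (2 * v + 1) + 1 := by
    rw [hq]; push_cast; ring
  have hkn : 2 * (u : ℤ) * k₀ ≤ n := by linarith
  have hx2 := iq_x2 hu1 hx0 hux
  have hqle := iq_qle hu1 hk₀ hkn hx2 hvu htz hqz
  have hqge := iq_qge hu1 hnz hnkz hx0 hv0 hvz htz hqz
  have hkey := iq_key hu1 hnz hx0 hux hkn
  have hrh := iq_rh hu1 hnz hkey hrle
  refine ⟨q, r, t, by exact_mod_cast hr1, ?_, by exact_mod_cast hqle, by exact_mod_cast hqge,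
    by exact_mod_cast hrh⟩
  have h1 : 2 * ((n.choose 2 : ℕ) : ℤ) = 2 * (r + t * (q + 1)) := by
    have h2 : 2 * ((n.choose 2 : ℕ) : ℤ) = (2 * u * k₀ + v + 1) * (2 * u * k₀ + v) := by
      rw [hnk]
      exact_mod_cast two_mul_choose (2 * u * k₀ + v)
    rw [h2, hqz, hr, htz]
    linear_combination (-1 : ℤ) * hc2z
  have h2 : ((n.choose 2 : ℕ) : ℤ) = r + t * (q + 1) := by linarith
  exact_mod_cast h2

/-- The superlinear lower bound. -/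
theorem wins_large {u n : ℕ} (hu : 1 ≤ u) (hn : 2560000 * u ^ 5 ≤ n) :
    ∃ q : ℕ, u * n ≤ 2 * q ∧ WaiterWins LastRound.clientTakesOne n q := by
  obtain ⟨q, r, t, hr1, hN, hqle, hqge, hrh⟩ := decomp hu hn
  have hun : 2560000 * u ≤ n := by
    have : u ≤ u ^ 5 := Nat.le_self_pow (by norm_num) u
    omega
  refine ⟨q, hqge, ?_⟩
  have hs : n < 40 * u * (n / (40 * u)) + 40 * u := by
    have := Nat.div_add_mod n (40 * u)
    have h2 := Nat.mod_lt n (show 40 * u > 0 by positivity)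
    omega
  refine waiterWins_one (r := r) (g := 10 * u) (s := n / (40 * u)) (h := 100 * u ^ 2) (b := n / 4)
    (t := t) hr1 ?_ hN ?_ ?_ ?_
  · -- r < q + 1
    have h1 : r ≤ r * (100 * u ^ 2) := Nat.le_mul_of_pos_right _ (by positivity)
    have h2 : n ≤ u * n := Nat.le_mul_of_pos_left _ hu
    omega
  · -- q + 1 ≤ g b
    have h1 : 2 * (u * n) ≤ 10 * u * (n / 4) := by
      have h2 : n ≤ 5 * (n / 4) := by omega
      calc 2 * (u * n) = 2 * u * n := by ring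
        _ ≤ 2 * u * (5 * (n / 4)) := Nat.mul_le_mul_left _ h2
        _ = 10 * u * (n / 4) := by ring
    omega
  · -- q + 1 ≤ s h
    have h1 : n ≤ 50 * u * (n / (40 * u)) := by
      generalize n / (40 * u) = s at hs ⊢
      have h3 : 50 * u * s = 40 * u * s + 10 * u * s := by ring
      by_contra hcon
      push Not at hcon
      have h4 : 10 * (50 * u * s) < 10 * n := by omega
      have h5 : 10 * (50 * u * s) = 12 * (40 * u * s) + 20 * u * s := by ring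
      have h6 : 40 * u * s = 2 * (20 * u * s) := by ring
      omega
    calc q + 1 ≤ 2 * (u * n) := hqle
      _ ≤ 2 * (u * (50 * u * (n / (40 * u)))) := by gcongr
      _ = n / (40 * u) * (100 * u ^ 2) := by ring
  · have h2 : 4 * (n / (40 * u) * (10 * u)) ≤ n := by
      have := Nat.div_mul_le_self n (40 * u)
      calc 4 * (n / (40 * u) * (10 * u)) = n / (40 * u) * (40 * u) := by ring
        _ ≤ n := this
    omega

/-- The numerology behind the order `n ^ (3 / 2)` for infinitely many `n`. -/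
theorem wins_special {v : ℕ} (hv : 1 ≤ v) :
    WaiterWins LastRound.clientTakesOne (60 * v ^ 2 + 2) (60 * v ^ 3 + 3 * v - 1) := by
  have hv3 : 1 ≤ v ^ 3 := Nat.one_le_pow _ _ hv
  have hq : 60 * v ^ 3 + 3 * v - 1 + 1 = 60 * v ^ 3 + 3 * v := by omega
  have hvv : v ≤ v ^ 3 := Nat.le_self_pow (by norm_num) v
  refine waiterWins_one (r := 1) (g := 5 * v) (s := 3 * v) (h := 25 * v ^ 2) (b := 15 * v ^ 2)
    (t := 30 * v) le_rfl (by omega) ?_ ?_ ?_ ?_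
  · rw [hq]
    have h1 : 2 * (60 * v ^ 2 + 1 + 1).choose 2 = (60 * v ^ 2 + 1 + 1) * (60 * v ^ 2 + 1) :=
      two_mul_choose _
    have h2 : 60 * v ^ 2 + 1 + 1 = 60 * v ^ 2 + 2 := by ring
    rw [h2] at h1
    have h3 : (60 * v ^ 2 + 2) * (60 * v ^ 2 + 1) = 2 * (1 + 30 * v * (60 * v ^ 3 + 3 * v)) := by ring
    omega
  · rw [hq]
    calc 60 * v ^ 3 + 3 * v ≤ 75 * v ^ 3 := by omega
      _ = 5 * v * (15 * v ^ 2) := by ring
  · rw [hq]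
    calc 60 * v ^ 3 + 3 * v ≤ 75 * v ^ 3 := by omega
      _ = 3 * v * (25 * v ^ 2) := by ring
  · have h1 : 3 * v * (5 * v) = 15 * v ^ 2 := by ring
    rw [h1]
    omega

end Pool.Agent.H7.OC
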