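import Pool.Graph.R_seed8.H28R3.Threshold

set_option autoImplicit false

namespace Pool.Agent.H7.OC

open Finset Pool.Agent.H28R3

variable {n : ℕ}

/-- A triangle is an odd cycle. -/
lemma hasOdd_triangle {C : Finset (Sym2 (Fin n))} {x y z : Fin n} (hxy : x ≠ y) (hyz : y ≠ z)
    (hxz : x ≠ z) (h1 : s(x, y) ∈ C) (h2 : s(y, z) ∈ C) (h3 : s(x, z) ∈ C) : HasOddCycle C := by
  classical
  have h : ∃ s : Finset (Fin n),
      (SimpleGraph.fromEdgeSet (C : Set (Sym2 (Fin n)))).IsNClique 3 s := by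
    refine ⟨{x, y, z}, ?_⟩
    rw [SimpleGraph.is3Clique_triple_iff]
    simp only [SimpleGraph.fromEdgeSet_adj, Finset.mem_coe]
    exact ⟨⟨h1, hxy⟩, ⟨h3, hxz⟩, ⟨h2, hyz⟩⟩
  rw [SimpleGraph.is3Clique_iff_exists_cycle_length_three] at h
  obtain ⟨u, w, hw, hl⟩ := h
  exact ⟨u, w, hw, by rw [hl]; decide⟩

/-- All edges of the complete bipartite graph between `S` and `H`. -/
def prodE (S H : Finset (Fin n)) : Finset (Sym2 (Fin n)) := (S ×ˢ H).image fun p => s(p.1, p.2)

lemma mem_prodE {S H : Finset (Fin n)} {e : Sym2 (Fin n)} :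
    e ∈ prodE S H ↔ ∃ a ∈ S, ∃ b ∈ H, e = s(a, b) := by
  unfold prodE
  rw [Finset.mem_image]
  constructor
  · rintro ⟨⟨a, b⟩, hp, rfl⟩
    rw [Finset.mem_product] at hp
    exact ⟨a, hp.1, b, hp.2, rfl⟩
  · rintro ⟨a, ha, b, hb, rfl⟩
    exact ⟨(a, b), Finset.mem_product.mpr ⟨ha, hb⟩, rfl⟩

lemma sym2_inj_of_disj {S H : Finset (Fin n)} (hd : Disjoint S H) {a b a' b' : Fin n}
    (ha : a ∈ S) (hb' : b' ∈ H) (h : s(a, b) = s(a', b')) : a = a' ∧ b = b' := by
  rw [Sym2.eq_iff] at h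
  rcases h with h | ⟨h1, -⟩
  · exact h
  · exfalso
    subst h1
    exact (Finset.disjoint_left.mp hd ha) hb'

lemma card_prodE {S H : Finset (Fin n)} (hd : Disjoint S H) :
    (prodE S H).card = S.card * H.card := by
  unfold prodE
  rw [Finset.card_image_of_injOn, Finset.card_product]
  rintro ⟨a, b⟩ hp ⟨a', b'⟩ hp' h
  rw [Finset.mem_coe, Finset.mem_product] at hp hp'
  obtain ⟨h1, h2⟩ := sym2_inj_of_disj hd hp.1 hp'.2 h
  simp only at h1 h2
  rw [h1, h2]

/-- The end of the game: if all the leftover edges close an odd cycle then Waiter wins. -/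
lemma endgame {q : ℕ} : ∀ (t : ℕ) (C U R : Finset (Sym2 (Fin n))), R ⊆ U → R.Nonempty →
    R.card < q + 1 → U.card = R.card + t * (q + 1) → (∀ e ∈ R, HasOddCycle (insert e C)) →
    WaiterForces LastRound.clientTakesOne q C U := by
  intro t
  induction t with
  | zero =>
    intro C U R hRU hne hR hU h
    have hEq : R = U := Finset.eq_of_subset_of_card_le hRU (by omega)
    subst hEq
    exact WaiterForces.last C R hne hR (fun _ => h) (fun h0 => by cases h0)
  | succ t ih =>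
    intro C U R hRU hne hR hU h
    have hc : (U \ R).card = (t + 1) * (q + 1) := by
      rw [Finset.card_sdiff_of_subset hRU]; omega
    obtain ⟨F, hFU, hF⟩ := Finset.exists_subset_card_eq
      (show q + 1 ≤ (U \ R).card by rw [hc]; nlinarith)
    have hFU' : F ⊆ U := hFU.trans Finset.sdiff_subset
    refine WaiterForces.round C U F hFU' hF fun e he => ?_
    refine ih (insert e C) (U \ F) R ?_ hne hR ?_ ?_
    · intro x hx
      rw [Finset.mem_sdiff]
      refine ⟨hRU hx, fun hxF => ?_⟩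
      exact (Finset.mem_sdiff.mp (hFU hxF)).2 hx
    · rw [Finset.card_sdiff_of_subset hFU', hU, hF]
      have : (t + 1) * (q + 1) = t * (q + 1) + (q + 1) := by ring
      omega
    · intro f hf
      refine (h f hf).mono ?_
      exact Finset.insert_subset_insert _ (Finset.subset_insert _ _)

/-- The second phase: Waiter creates `j` further threats. -/
lemma phase2 {q r h : ℕ} (hr : r < q + 1) (hr0 : 1 ≤ r) {A2 B S : Finset (Fin n)}
    (hA2B : Disjoint A2 B) (hSA2 : Disjoint S A2) (hSB : Disjoint S B)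
    (hSh : q + 1 ≤ S.card * h) :
    ∀ (j : ℕ) (C U R : Finset (Sym2 (Fin n))) (Bf : Finset (Fin n)) (t : ℕ), Bf ⊆ B →
    j * h ≤ Bf.card → R.card + j = r → U.card = r + t * (q + 1) →
    (∀ a ∈ S, ∃ y ∈ A2, s(a, y) ∈ C) → (∀ y ∈ A2, ∀ b ∈ B, s(y, b) ∈ U) →
    (∀ a ∈ S, ∀ b ∈ Bf, s(a, b) ∈ U) →
    (∀ e ∈ R, (∃ y ∈ A2, ∃ b ∈ B \ Bf, e = s(y, b)) ∧ HasOddCycle (insert e C)) →
    WaiterForces LastRound.clientTakesOne q C U := by
  intro j
  induction j with
  | zero =>
    intro C U R Bf t hBf hj hRj hU hS hU2 hU1 hR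
    have hRr : R.card = r := by omega
    refine endgame t C U R ?_ ?_ (by omega) (by rw [hRr]; exact hU) (fun e he => (hR e he).2)
    · intro e he
      obtain ⟨⟨y, hy, b, hb, rfl⟩, -⟩ := hR e he
      exact hU2 y hy b (Finset.mem_sdiff.mp hb).1
    · rw [← Finset.card_pos]; omega
  | succ j ih =>
    intro C U R Bf t hBf hj hRj hU hS hU2 hU1 hR
    have hhB : h ≤ Bf.card := by nlinarith
    obtain ⟨H, hH, hHc⟩ := Finset.exists_subset_card_eq hhB
    have hSBf : Disjoint S Bf := Finset.disjoint_of_subset_right hBf hSB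
    have hSH : Disjoint S H := Finset.disjoint_of_subset_right hH hSBf
    have hPc : (prodE S H).card = S.card * h := by rw [card_prodE hSH, hHc]
    obtain ⟨F, hFP, hF⟩ := Finset.exists_subset_card_eq (show q + 1 ≤ (prodE S H).card by
      rw [hPc]; exact hSh)
    have hFU : F ⊆ U := by
      intro e he
      obtain ⟨a, ha, b, hb, rfl⟩ := mem_prodE.mp (hFP he)
      exact hU1 a ha b (hH hb)
    refine WaiterForces.round C U F hFU hF fun e he => ?_
    obtain ⟨a, ha, b, hb, rfl⟩ := mem_prodE.mp (hFP he)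
    obtain ⟨y, hy, hay⟩ := hS a ha
    have hqU : q + 1 ≤ U.card := by rw [← hF]; exact Finset.card_le_card hFU
    obtain ⟨t', rfl⟩ : ∃ t', t = t' + 1 := by
      refine ⟨t - 1, ?_⟩
      rcases Nat.eq_zero_or_pos t with rfl | ht
      · omega
      · omega
    have hbB : b ∈ B := hBf (hH hb)
    have hyb : y ≠ b := fun h0 => (Finset.disjoint_left.mp hA2B hy) (h0 ▸ hbB)
    have hay' : a ≠ y := fun h0 => (Finset.disjoint_left.mp hSA2 ha) (h0 ▸ hy)
    have hab' : a ≠ b := fun h0 => (Finset.disjoint_left.mp hSB ha) (h0 ▸ hbB)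
    have hfresh : s(y, b) ∉ R := by
      intro h0
      obtain ⟨⟨y', hy', b', hb', h1⟩, -⟩ := hR _ h0
      have h2 := sym2_inj_of_disj hA2B hy (Finset.mem_sdiff.mp hb').1 h1
      have h3 := (Finset.mem_sdiff.mp hb').2
      rw [← h2.2] at h3
      exact h3 (hH hb)
    refine ih (insert s(a, b) C) (U \ F) (insert s(y, b) R) (Bf \ H) t' ?_ ?_ ?_ ?_ ?_ ?_ ?_ ?_
    · exact Finset.sdiff_subset.trans hBf
    · rw [Finset.card_sdiff_of_subset hH, hHc]
      have : (j + 1) * h = j * h + h := by ring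
      omega
    · rw [Finset.card_insert_of_notMem hfresh]; omega
    · rw [Finset.card_sdiff_of_subset hFU, hU, hF]
      have : (t' + 1) * (q + 1) = t' * (q + 1) + (q + 1) := by ring
      omega
    · intro a' ha'
      obtain ⟨y', hy', h'⟩ := hS a' ha'
      exact ⟨y', hy', Finset.mem_insert_of_mem h'⟩
    · intro y' hy' b' hb'
      rw [Finset.mem_sdiff]
      refine ⟨hU2 y' hy' b' hb', fun h0 => ?_⟩
      obtain ⟨a₁, ha₁, b₁, hb₁, h1⟩ := mem_prodE.mp (hFP h0)
      have h2 := sym2_inj_of_disj hA2B hy' (hBf (hH hb₁)) h1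
      exact (Finset.disjoint_left.mp hSA2 ha₁) (h2.1 ▸ hy')
    · intro a' ha' b' hb'
      rw [Finset.mem_sdiff] at hb' ⊢
      refine ⟨hU1 a' ha' b' hb'.1, fun h0 => ?_⟩
      obtain ⟨a₁, ha₁, b₁, hb₁, h1⟩ := mem_prodE.mp (hFP h0)
      have h2 := sym2_inj_of_disj hSH ha' hb₁ h1
      exact hb'.2 (h2.2 ▸ hb₁)
    · intro e he
      rw [Finset.mem_insert] at he
      rcases he with rfl | he
      · refine ⟨⟨y, hy, b, ?_, rfl⟩, ?_⟩
        · rw [Finset.mem_sdiff, Finset.mem_sdiff]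
          exact ⟨hbB, fun h0 => h0.2 hb⟩
        · refine hasOdd_triangle hay' hyb hab' ?_ ?_ ?_
          · exact Finset.mem_insert_of_mem (Finset.mem_insert_of_mem hay)
          · exact Finset.mem_insert_self _ _
          · exact Finset.mem_insert_of_mem (Finset.mem_insert_self _ _)
      · obtain ⟨⟨y', hy', b', hb', rfl⟩, h2⟩ := hR e he
        refine ⟨⟨y', hy', b', ?_, rfl⟩, h2.mono ?_⟩
        · rw [Finset.mem_sdiff] at hb' ⊢
          exact ⟨hb'.1, fun h0 => hb'.2 (Finset.sdiff_subset h0)⟩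
        · exact Finset.insert_subset_insert _ (Finset.subset_insert _ _)

/-- The first phase: Waiter makes `s` vertices of `A1` adjacent to `A2` in Client's graph. -/
lemma phase1 {q r h g s : ℕ} (hr : r < q + 1) (hr0 : 1 ≤ r) {A1 A2 B : Finset (Fin n)}
    (hA12 : Disjoint A1 A2) (hA2B : Disjoint A2 B) (hA1B : Disjoint A1 B)
    (hg : q + 1 ≤ g * A2.card) (hsh : q + 1 ≤ s * h) (hB : r * h ≤ B.card) :
    ∀ (j : ℕ) (C U : Finset (Sym2 (Fin n))) (S Af : Finset (Fin n)) (t : ℕ), S ⊆ A1 → Af ⊆ A1 →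
    Disjoint S Af → S.card + j = s → j * g ≤ Af.card → U.card = r + t * (q + 1) →
    (∀ a ∈ S, ∃ y ∈ A2, s(a, y) ∈ C) → (∀ y ∈ A2, ∀ b ∈ B, s(y, b) ∈ U) →
    (∀ a ∈ A1, ∀ b ∈ B, s(a, b) ∈ U) → (∀ a ∈ Af, ∀ y ∈ A2, s(a, y) ∈ U) →
    WaiterForces LastRound.clientTakesOne q C U := by
  intro j
  induction j with
  | zero =>
    intro C U S Af t hS1 hAf hSAf hSj hj hU hS hU2 hU1 hUA
    refine phase2 hr hr0 (A2 := A2) (B := B) (S := S) (h := h) hA2B
      (Finset.disjoint_of_subset_left hS1 hA12) (Finset.disjoint_of_subset_left hS1 hA1B) ?_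
      r C U ∅ B t (Finset.Subset.refl _) hB (by simp) hU hS hU2
      (fun a ha b hb => hU1 a (hS1 ha) b hb) (fun e he => absurd he (Finset.notMem_empty _))
    have : S.card = s := by omega
    rw [this]; exact hsh
  | succ j ih =>
    intro C U S Af t hS1 hAf hSAf hSj hj hU hS hU2 hU1 hUA
    have hgA : g ≤ Af.card := by nlinarith
    obtain ⟨H, hH, hHc⟩ := Finset.exists_subset_card_eq hgA
    have hHA1 : H ⊆ A1 := hH.trans hAf
    have hHA2 : Disjoint H A2 := Finset.disjoint_of_subset_left hHA1 hA12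
    have hPc : (prodE H A2).card = g * A2.card := by rw [card_prodE hHA2, hHc]
    obtain ⟨F, hFP, hF⟩ := Finset.exists_subset_card_eq (show q + 1 ≤ (prodE H A2).card by
      rw [hPc]; exact hg)
    have hFU : F ⊆ U := by
      intro e he
      obtain ⟨a, ha, b, hb, rfl⟩ := mem_prodE.mp (hFP he)
      exact hUA a (hH ha) b hb
    refine WaiterForces.round C U F hFU hF fun e he => ?_
    obtain ⟨a, ha, y, hy, rfl⟩ := mem_prodE.mp (hFP he)
    have hqU : q + 1 ≤ U.card := by rw [← hF]; exact Finset.card_le_card hFU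
    obtain ⟨t', rfl⟩ : ∃ t', t = t' + 1 := by
      refine ⟨t - 1, ?_⟩
      rcases Nat.eq_zero_or_pos t with rfl | ht
      · omega
      · omega
    have haS : a ∉ S := fun h0 => (Finset.disjoint_left.mp hSAf h0) (hH ha)
    refine ih (insert s(a, y) C) (U \ F) (insert a S) (Af \ H) t' ?_ ?_ ?_ ?_ ?_ ?_ ?_ ?_ ?_ ?_
    · exact Finset.insert_subset (hHA1 ha) hS1
    · exact Finset.sdiff_subset.trans hAf
    · rw [Finset.disjoint_left]
      intro x hx hx2
      rw [Finset.mem_sdiff] at hx2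
      rw [Finset.mem_insert] at hx
      rcases hx with rfl | hx
      · exact hx2.2 ha
      · exact (Finset.disjoint_left.mp hSAf hx) hx2.1
    · rw [Finset.card_insert_of_notMem haS]; omega
    · rw [Finset.card_sdiff_of_subset hH, hHc]
      have : (j + 1) * g = j * g + g := by ring
      omega
    · rw [Finset.card_sdiff_of_subset hFU, hU, hF]
      have : (t' + 1) * (q + 1) = t' * (q + 1) + (q + 1) := by ring
      omega
    · intro a' ha'
      rw [Finset.mem_insert] at ha'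
      rcases ha' with rfl | ha'
      · exact ⟨y, hy, Finset.mem_insert_self _ _⟩
      · obtain ⟨y', hy', h'⟩ := hS a' ha'
        exact ⟨y', hy', Finset.mem_insert_of_mem h'⟩
    · intro y' hy' b' hb'
      rw [Finset.mem_sdiff]
      refine ⟨hU2 y' hy' b' hb', fun h0 => ?_⟩
      obtain ⟨a₁, ha₁, b₁, hb₁, h1⟩ := mem_prodE.mp (hFP h0)
      rw [Sym2.eq_iff] at h1
      rcases h1 with ⟨rfl, rfl⟩ | ⟨rfl, rfl⟩
      · exact (Finset.disjoint_left.mp hA12 (hHA1 ha₁)) hy'
      · exact (Finset.disjoint_left.mp hA1B (hHA1 ha₁)) hb'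
    · intro a' ha' b' hb'
      rw [Finset.mem_sdiff]
      refine ⟨hU1 a' ha' b' hb', fun h0 => ?_⟩
      obtain ⟨a₁, ha₁, b₁, hb₁, h1⟩ := mem_prodE.mp (hFP h0)
      rw [Sym2.eq_iff] at h1
      rcases h1 with ⟨rfl, rfl⟩ | ⟨rfl, rfl⟩
      · exact (Finset.disjoint_left.mp hA2B hb₁) hb'
      · exact (Finset.disjoint_left.mp hA12 ha') hb₁
    · intro a' ha' y' hy'
      rw [Finset.mem_sdiff] at ha' ⊢
      refine ⟨hUA a' ha'.1 y' hy', fun h0 => ?_⟩
      obtain ⟨a₁, ha₁, b₁, hb₁, h1⟩ := mem_prodE.mp (hFP h0)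
      have h2 := sym2_inj_of_disj hA12 (hAf ha'.1) hb₁ h1
      exact ha'.2 (h2.1 ▸ ha₁)

/-- A set of consecutive vertices. -/
lemma exists_three {a b c : ℕ} (h : a + b + c ≤ n) : ∃ A1 A2 B : Finset (Fin n),
    A1.card = a ∧ A2.card = b ∧ B.card = c ∧ Disjoint A1 A2 ∧ Disjoint A2 B ∧ Disjoint A1 B := by
  classical
  obtain ⟨A1, h1, hc1⟩ := Finset.exists_subset_card_eq
    (show a ≤ (Finset.univ : Finset (Fin n)).card by rw [Finset.card_fin]; omega)
  obtain ⟨A2, h2, hc2⟩ := Finset.exists_subset_card_eq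
    (show b ≤ ((Finset.univ : Finset (Fin n)) \ A1).card by
      rw [Finset.card_sdiff_of_subset h1, Finset.card_fin]; omega)
  have hd12 : Disjoint A1 A2 := by
    rw [Finset.disjoint_left]
    intro x hx hx2
    exact (Finset.mem_sdiff.mp (h2 hx2)).2 hx
  obtain ⟨B, h3, hc3⟩ := Finset.exists_subset_card_eq
    (show c ≤ ((Finset.univ : Finset (Fin n)) \ (A1 ∪ A2)).card by
      rw [Finset.card_sdiff_of_subset (Finset.subset_univ _), Finset.card_fin,
        Finset.card_union_of_disjoint hd12]; omega)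
  refine ⟨A1, A2, B, hc1, hc2, hc3, hd12, ?_, ?_⟩
  · rw [Finset.disjoint_left]
    intro x hx hx2
    exact (Finset.mem_sdiff.mp (h3 hx2)).2 (Finset.mem_union_right _ hx)
  · rw [Finset.disjoint_left]
    intro x hx hx2
    exact (Finset.mem_sdiff.mp (h3 hx2)).2 (Finset.mem_union_left _ hx)

/-- **Waiter's strategy in the literal convention.**  If `1 ≤ r = binom n 2 mod (q + 1)` and the
numerical conditions hold then Waiter wins. -/
theorem waiterWins_one {q r g s h b t : ℕ} (hr0 : 1 ≤ r) (hr : r < q + 1)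
    (hN : n.choose 2 = r + t * (q + 1)) (hg : q + 1 ≤ g * b) (hsh : q + 1 ≤ s * h)
    (hn : s * g + b + r * h ≤ n) : WaiterWins LastRound.clientTakesOne n q := by
  classical
  obtain ⟨A1, A2, B, c1, c2, c3, d12, d2B, d1B⟩ := exists_three hn
  unfold WaiterWins
  have hcard : ((⊤ : SimpleGraph (Fin n)).edgeFinset).card = n.choose 2 := card_E0
  have hmem : ∀ {x y : Fin n}, x ≠ y → s(x, y) ∈ (⊤ : SimpleGraph (Fin n)).edgeFinset := by
    intro x y hxy
    rw [SimpleGraph.mem_edgeFinset, SimpleGraph.mem_edgeSet, SimpleGraph.top_adj]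
    exact hxy
  refine phase1 (s := s) (h := h) (g := g) hr hr0 d12 d2B d1B (by rw [c2]; exact hg) hsh
    (by rw [c3]) s ∅ _ ∅ A1 t (Finset.empty_subset _) (Finset.Subset.refl _)
    (Finset.disjoint_empty_left _) (by simp) (by rw [c1]) (by rw [hcard]; exact hN)
    (fun a ha => absurd ha (Finset.notMem_empty _)) ?_ ?_ ?_
  · intro y hy b hb
    exact hmem fun h0 => (Finset.disjoint_left.mp d2B hy) (h0 ▸ hb)
  · intro a ha b hb
    exact hmem fun h0 => (Finset.disjoint_left.mp d1B ha) (h0 ▸ hb)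
  · intro a ha y hy
    exact hmem fun h0 => (Finset.disjoint_left.mp d12 ha) (h0 ▸ hy)

end Pool.Agent.H7.OC
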